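import Mathlib

set_option autoImplicit false

namespace Pool.Agent.Helper820_Eden

/-- Maximal number of edges spanned by `n` vertices of a cubic lattice (computed with fuel). -/
def EEf : ℕ → ℕ → ℕ
  | 0, _ => 0
  | f + 1, n => if n ≤ 1 then 0 else EEf f (n / 2) + EEf f ((n + 1) / 2) + n / 2

/-- Maximal number of edges spanned by `n` vertices of a cubic lattice. -/
def EE (n : ℕ) : ℕ := EEf n n

lemma EEf_eq : ∀ (f n : ℕ), n ≤ f → ∀ g, n ≤ g → EEf f n = EEf g n := by
  intro f
  induction f with
  | zero =>
    intro n hn g hg
    have : n = 0 := by omega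
    subst this
    cases g <;> simp [EEf]
  | succ f ih =>
    intro n hn g hg
    cases g with
    | zero =>
      have : n = 0 := by omega
      subst this
      simp [EEf]
    | succ g =>
      simp only [EEf]
      split_ifs with h
      · rfl
      · rw [ih (n / 2) (by omega) g (by omega), ih ((n + 1) / 2) (by omega) g (by omega)]

lemma EE_zero : EE 0 = 0 := rfl
lemma EE_one : EE 1 = 0 := rfl

lemma EE_rec (n : ℕ) (h : 2 ≤ n) : EE n = EE (n / 2) + EE ((n + 1) / 2) + n / 2 := by
  obtain ⟨k, rfl⟩ : ∃ k, n = k + 1 := ⟨n - 1, by omega⟩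
  unfold EE
  conv_lhs => rw [EEf]
  rw [if_neg (by omega)]
  rw [EEf_eq k ((k + 1) / 2) (by omega) _ le_rfl, EEf_eq k ((k + 1 + 1) / 2) (by omega) _ le_rfl]

lemma EE_even (n : ℕ) : EE (2 * n) = 2 * EE n + n := by
  rcases Nat.eq_zero_or_pos n with rfl | hn
  · simp [EE_zero]
  · rw [EE_rec _ (by omega)]
    have h1 : 2 * n / 2 = n := by omega
    have h2 : (2 * n + 1) / 2 = n := by omega
    rw [h1, h2]; ring

lemma EE_odd (n : ℕ) : EE (2 * n + 1) = EE n + EE (n + 1) + n := by
  rcases Nat.eq_zero_or_pos n with rfl | hn
  · simp [EE_zero, EE_one]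
  · rw [EE_rec _ (by omega)]
    have h1 : (2 * n + 1) / 2 = n := by omega
    have h2 : (2 * n + 1 + 1) / 2 = n + 1 := by omega
    rw [h1, h2]

lemma EE_super : ∀ (N a b : ℕ), a + b ≤ N → EE a + EE b + min a b ≤ EE (a + b) := by
  intro N
  induction N with
  | zero =>
    intro a b h
    have : a = 0 := by omega
    have : b = 0 := by omega
    subst_vars
    simp [EE_zero]
  | succ N ih =>
    intro a b h
    rcases Nat.eq_zero_or_pos a with rfl | ha
    · simp [EE_zero]
    rcases Nat.eq_zero_or_pos b with rfl | hb
    · simp [EE_zero]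
    rcases Nat.even_or_odd' a with ⟨a', rfl | rfl⟩ <;> rcases Nat.even_or_odd' b with ⟨b', rfl | rfl⟩
    · have h1 := ih a' b' (by omega)
      have h2 : 2 * a' + 2 * b' = 2 * (a' + b') := by ring
      rw [h2, EE_even, EE_even, EE_even]
      omega
    · have h1 := ih a' b' (by omega)
      have h3 := ih a' (b' + 1) (by omega)
      have h2 : 2 * a' + (2 * b' + 1) = 2 * (a' + b') + 1 := by ring
      rw [h2, EE_even, EE_odd, EE_odd]
      have h4 : a' + (b' + 1) = a' + b' + 1 := by ring
      rw [h4] at h3
      omega
    · have h1 := ih a' b' (by omega)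
      have h3 := ih (a' + 1) b' (by omega)
      have h2 : 2 * a' + 1 + 2 * b' = 2 * (a' + b') + 1 := by ring
      rw [h2, EE_even, EE_odd, EE_odd]
      have h4 : a' + 1 + b' = a' + b' + 1 := by ring
      rw [h4] at h3
      omega
    · rcases Nat.lt_or_ge (a' + (b' + 1)) (N + 1) with hlt | hge
      · have h1 := ih a' (b' + 1) (by omega)
        have h3 := ih (a' + 1) b' (by omega)
        have h2 : 2 * a' + 1 + (2 * b' + 1) = 2 * (a' + b' + 1) := by ring
        rw [h2, EE_even, EE_odd, EE_odd]
        have h4 : a' + 1 + b' = a' + b' + 1 := by ring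
        have h5 : a' + (b' + 1) = a' + b' + 1 := by ring
        rw [h4] at h3
        rw [h5] at h1
        omega
      · have ha0 : a' = 0 := by omega
        have hb0 : b' = 0 := by omega
        subst ha0 hb0
        decide

section

variable {ι : Type} [Fintype ι] [DecidableEq ι]

/-- Number of edges spanned by a finite set. -/
def inner (S : Finset (ι → ℤ)) : ℕ :=
  ∑ i : ι, (S.filter (fun x => x + Pi.single i 1 ∈ S)).card

/-- The edge isoperimetric inequality in cubic lattices. -/
theorem inner_le : ∀ (N : ℕ) (S : Finset (ι → ℤ)), S.card ≤ N → inner S ≤ EE S.card := by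
  intro N
  induction N with
  | zero =>
    intro S hS
    have : S = ∅ := Finset.card_eq_zero.1 (by omega)
    subst this
    simp [inner]
  | succ N ih =>
    intro S hS
    by_cases h1 : S.card ≤ 1
    · have : inner S = 0 := by
        unfold inner
        refine Finset.sum_eq_zero fun i _ => ?_
        rw [Finset.card_eq_zero, Finset.filter_eq_empty_iff]
        intro x hx hx'
        have := Finset.card_le_one.1 h1 x hx _ hx'
        have h2 := congrFun this i
        simp at h2
      omega
    · push Not at h1
      obtain ⟨x, hx, y, hy, hxy⟩ := Finset.one_lt_card.1 h1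
      obtain ⟨j, hj⟩ : ∃ j, x j < y j ∨ y j < x j := by
        by_contra hcon
        push Not at hcon
        exact hxy (funext fun i => le_antisymm (hcon i).2 (hcon i).1)
      obtain ⟨x, hx, y, hy, hj⟩ : ∃ x ∈ S, ∃ y ∈ S, x j < y j := by
        rcases hj with h | h
        · exact ⟨x, hx, y, hy, h⟩
        · exact ⟨y, hy, x, hx, h⟩
      set c := x j with hc
      set S1 := S.filter (fun z => z j ≤ c) with hS1
      set S2 := S.filter (fun z => ¬ z j ≤ c) with hS2
      have hcard : S1.card + S2.card = S.card := Finset.card_filter_add_card_filter_not _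
      have hx1 : x ∈ S1 := Finset.mem_filter.2 ⟨hx, le_rfl⟩
      have hy2 : y ∈ S2 := Finset.mem_filter.2 ⟨hy, not_le.2 hj⟩
      have hc1 : 0 < S1.card := Finset.card_pos.2 ⟨x, hx1⟩
      have hc2 : 0 < S2.card := Finset.card_pos.2 ⟨y, hy2⟩
      have i1 := ih S1 (by omega)
      have i2 := ih S2 (by omega)
      set cr := (S1.filter (fun z => z + Pi.single j 1 ∈ S2)).card with hcr
      have hcr1 : cr ≤ S1.card := Finset.card_filter_le _ _
      have hcr2 : cr ≤ S2.card := by
        refine Finset.card_le_card_of_injOn (fun z => z + Pi.single j 1) ?_ ?_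
        · intro z hz
          simp only [Finset.coe_filter, Set.mem_setOf_eq] at hz
          exact hz.2
        · intro z _ w _ h
          exact add_right_cancel h
      have hsum : inner S ≤ inner S1 + inner S2 + cr := by
        unfold inner
        rw [← Finset.sum_add_distrib]
        have hcrsum : cr = ∑ i : ι, if i = j then cr else 0 := by simp
        rw [hcrsum, ← Finset.sum_add_distrib]
        refine Finset.sum_le_sum fun i _ => ?_
        have hsub : S.filter (fun z => z + Pi.single i 1 ∈ S) ⊆
            (S1.filter (fun z => z + Pi.single i 1 ∈ S1) ∪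
              S2.filter (fun z => z + Pi.single i 1 ∈ S2)) ∪
              (if i = j then S1.filter (fun z => z + Pi.single j 1 ∈ S2) else ∅) := by
          intro z hz
          rw [Finset.mem_filter] at hz
          obtain ⟨hz1, hz2⟩ := hz
          by_cases hij : i = j
          · subst hij
            simp only [if_true, Finset.mem_union, Finset.mem_filter, hS1, hS2, hz1, hz2,
              true_and, Pi.add_apply, Pi.single_eq_same]
            omega
          · have : (z + Pi.single i (1 : ℤ) : ι → ℤ) j = z j := by
              simp [Pi.single_apply, Ne.symm hij]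
            simp only [hij, if_false, Finset.mem_union, Finset.mem_filter, hS1, hS2, hz1, hz2,
              true_and, this, Finset.notMem_empty, or_false]
            omega
        refine (Finset.card_le_card hsub).trans ?_
        refine (Finset.card_union_le _ _).trans ?_
        refine add_le_add (Finset.card_union_le _ _) ?_
        split_ifs
        · exact le_rfl
        · simp
      have := EE_super _ S1.card S2.card le_rfl
      rw [hcard] at this
      have hmin : cr ≤ min S1.card S2.card := le_min hcr1 hcr2
      omega

/-- Reversed edges. -/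
lemma inner_rev (S : Finset (ι → ℤ)) (i : ι) :
    (S.filter (fun x => x - Pi.single i 1 ∈ S)).card =
      (S.filter (fun x => x + Pi.single i 1 ∈ S)).card := by
  refine Finset.card_bij (fun x _ => x - Pi.single i 1) ?_ ?_ ?_
  · intro x hx
    rw [Finset.mem_filter] at hx ⊢
    exact ⟨hx.2, by simpa using hx.1⟩
  · intro x _ y _ h
    exact sub_left_injective h
  · intro y hy
    rw [Finset.mem_filter] at hy
    exact ⟨y + Pi.single i 1, by rw [Finset.mem_filter]; exact ⟨hy.2, by simpa using hy.1⟩, by simp⟩

end

end Pool.Agent.Helper820_Eden
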