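import Mathlib

set_option autoImplicit false
open scoped ENNReal

namespace Pool.Agent.Helper820_Eden

variable {V : Type} {G : SimpleGraph V}

/-- The total weight of a walk. -/
noncomputable def cost (w : Sym2 V → ℝ≥0∞) {x y : V} (p : G.Walk x y) : ℝ≥0∞ :=
  (p.edges.map w).sum

/-- The passage time from the set `A` to the set `S`. -/
noncomputable def tau (G : SimpleGraph V) (w : Sym2 V → ℝ≥0∞) (A S : Set V) : ℝ≥0∞ :=
  ⨅ (x : V) (_ : x ∈ A) (y : V) (_ : y ∈ S) (p : G.Walk x y), cost w p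

lemma tau_le {w : Sym2 V → ℝ≥0∞} {A S : Set V} {x y : V} (hx : x ∈ A) (hy : y ∈ S)
    (p : G.Walk x y) : tau G w A S ≤ cost w p := by
  unfold tau
  exact iInf₂_le_of_le x hx (iInf₂_le_of_le y hy (iInf_le _ p))

lemma le_tau {w : Sym2 V → ℝ≥0∞} {A S : Set V} {c : ℝ≥0∞}
    (h : ∀ x ∈ A, ∀ y ∈ S, ∀ p : G.Walk x y, c ≤ cost w p) : c ≤ tau G w A S := by
  unfold tau
  exact le_iInf₂ fun x hx => le_iInf₂ fun y hy => le_iInf fun p => h x hx y hy p

lemma tau_anti {w : Sym2 V → ℝ≥0∞} {A B S : Set V} (h : A ⊆ B) :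
    tau G w B S ≤ tau G w A S :=
  le_tau fun _ hx _ hy p => tau_le (h hx) hy p

lemma cost_cons (w : Sym2 V → ℝ≥0∞) {x y z : V} (h : G.Adj x y) (p : G.Walk y z) :
    cost w (SimpleGraph.Walk.cons h p) = w s(x, y) + cost w p := by
  simp [cost]

lemma tau_insert (w : Sym2 V → ℝ≥0∞) {A S : Set V} {u v : V} (hu : u ∈ A) (h : G.Adj u v) :
    tau G w A S ≤ w s(u, v) + tau G w (insert v A) S := by
  rw [add_comm, ← tsub_le_iff_right]
  refine le_tau fun x hx y hy p => ?_
  rw [tsub_le_iff_right]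
  rcases hx with rfl | hx
  · have := tau_le (w := w) hu hy (SimpleGraph.Walk.cons h p)
    rw [cost_cons, add_comm] at this
    exact this
  · exact (tau_le hx hy p).trans le_self_add

/-- Last exit decomposition. -/
lemma last_exit (A : Set V) : ∀ {x y : V} (p : G.Walk x y), (∃ v ∈ p.support, v ∈ A) →
    ∃ x' ∈ A, ∃ p' : G.Walk x' y, (∀ v ∈ p'.support.tail, v ∉ A) ∧ p'.edges <:+ p.edges := by
  intro x y p
  induction p with
  | nil =>
    rintro ⟨v, hv, hvA⟩
    simp at hv
    subst hv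
    exact ⟨v, hvA, SimpleGraph.Walk.nil, by simp, by simp⟩
  | @cons a b c h q ih =>
    intro hex
    by_cases hq : ∃ v ∈ q.support, v ∈ A
    · obtain ⟨x', hx', p', hp', hs⟩ := ih hq
      refine ⟨x', hx', p', hp', ?_⟩
      rw [SimpleGraph.Walk.edges_cons]
      exact hs.trans (List.suffix_cons _ _)
    · push Not at hq
      obtain ⟨v, hv, hvA⟩ := hex
      have hva : v = a := by
        rw [SimpleGraph.Walk.support_cons, List.mem_cons] at hv
        rcases hv with hv | hv
        · exact hv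
        · exact absurd hvA (hq v hv)
      subst hva
      exact ⟨v, hvA, SimpleGraph.Walk.cons h q, by simpa using hq, List.suffix_rfl⟩

lemma cost_le_of_suffix (w : Sym2 V → ℝ≥0∞) {x y x' y' : V} (p : G.Walk x y)
    (p' : G.Walk x' y') (h : p'.edges <:+ p.edges) : cost w p' ≤ cost w p := by
  unfold cost
  exact (h.sublist.map w).sum_le_sum (by simp)

/-- It is enough to use walks that never return to `A`. -/
lemma tau_ge_of_tail {w : Sym2 V → ℝ≥0∞} {A S : Set V} {c : ℝ≥0∞}
    (h : ∀ x ∈ A, ∀ y ∈ S, ∀ p : G.Walk x y, (∀ v ∈ p.support.tail, v ∉ A) → c ≤ cost w p) :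
    c ≤ tau G w A S := by
  refine le_tau fun x hx y hy p => ?_
  obtain ⟨x', hx', p', hp', hs⟩ := last_exit A p ⟨x, p.start_mem_support, hx⟩
  exact (h x' hx' y hy p' hp').trans (cost_le_of_suffix w p p' hs)

/-- Edges of a walk whose tail avoids `A` are not internal to `A`, and all but the first one
avoid `A`. -/
lemma edges_of_tail {A : Set V} {x y : V} (p : G.Walk x y) (hp : ∀ v ∈ p.support.tail, v ∉ A) :
    (∀ e ∈ p.edges.tail, ∀ v ∈ e, v ∉ A) ∧ (∀ e ∈ p.edges, ∃ v ∈ e, v ∉ A) := by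
  cases p with
  | nil => simp
  | @cons _ b _ h q =>
    simp only [SimpleGraph.Walk.support_cons, List.tail_cons] at hp
    simp only [SimpleGraph.Walk.edges_cons, List.tail_cons, List.mem_cons]
    have key : ∀ e ∈ q.edges, ∀ v ∈ e, v ∉ A := by
      intro e he v hv
      exact hp v (SimpleGraph.Walk.mem_support_of_mem_edges he hv)
    refine ⟨key, ?_⟩
    rintro e (rfl | he)
    · exact ⟨b, by simp, hp b q.start_mem_support⟩
    · have := key e he
      induction e with
      | h a b => exact ⟨a, by simp, this a (by simp)⟩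

/-- `tau` only depends on the weights of edges that are not internal to `A`. -/
lemma tau_congr {w w' : Sym2 V → ℝ≥0∞} {A S : Set V}
    (h : ∀ e : Sym2 V, (∃ v ∈ e, v ∉ A) → w e = w' e) : tau G w A S = tau G w' A S := by
  have key : ∀ w w' : Sym2 V → ℝ≥0∞, (∀ e : Sym2 V, (∃ v ∈ e, v ∉ A) → w e = w' e) →
      tau G w A S ≤ tau G w' A S := by
    intro w w' h
    refine tau_ge_of_tail fun x hx y hy p hp => (tau_le (w := w) hx hy p).trans ?_
    unfold cost
    rw [List.map_congr_left fun e he => h e ((edges_of_tail p hp).2 e he)]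
  exact le_antisymm (key w w' h) (key w' w fun e he => (h e he).symm)

/-- Raising by `s` the weights of edges that touch `A` raises `tau` by at most `s`. -/
lemma tau_add_le {w : Sym2 V → ℝ≥0∞} {A S : Set V} (E : Set (Sym2 V)) (s : ℝ≥0∞)
    (w' : Sym2 V → ℝ≥0∞) (h1 : ∀ e ∈ E, w' e ≤ w e + s) (h2 : ∀ e ∉ E, w' e ≤ w e)
    (hE : ∀ e ∈ E, ∃ v ∈ e, v ∈ A) :
    tau G w' A S ≤ tau G w A S + s := by
  rw [← tsub_le_iff_right]
  refine tau_ge_of_tail fun x hx y hy p hp => ?_
  rw [tsub_le_iff_right]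
  refine (tau_le (w := w') hx hy p).trans ?_
  cases p with
  | nil => simp [cost]
  | @cons _ b _ h q =>
    have h3 := (edges_of_tail _ hp).1
    simp only [SimpleGraph.Walk.edges_cons, List.tail_cons] at h3
    rw [cost_cons, cost_cons]
    have h4 : cost w' q ≤ cost w q := by
      unfold cost
      refine List.sum_le_sum fun e he => h2 e fun heE => ?_
      obtain ⟨v, hv, hvA⟩ := hE e heE
      exact h3 e he v hv hvA
    have h5 : w' s(x, b) ≤ w s(x, b) + s := by
      by_cases hx : s(x, b) ∈ E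
      · exact h1 _ hx
      · exact (h2 _ hx).trans le_self_add
    calc w' s(x, b) + cost w' q ≤ (w s(x, b) + s) + cost w q := add_le_add h5 h4
      _ = w s(x, b) + cost w q + s := by ring

end Pool.Agent.Helper820_Eden
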