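import Mathlib
import Pool.Agent.Helper820_Eden.Walks

set_option autoImplicit false
open MeasureTheory ProbabilityTheory
open scoped ENNReal

namespace Pool.Agent.Helper820_Eden

instance instExp : IsProbabilityMeasure (expMeasure 1) := isProbabilityMeasure_expMeasure one_pos

/-- The law of an i.i.d. family of exponential variables of rate one. -/
noncomputable abbrev law (ι : Type) : Measure (ι → ℝ) :=
  Measure.infinitePi (fun _ : ι => expMeasure 1)

section

variable {ι : Type} [DecidableEq ι]

lemma measurable_upd (e : ι) :
    Measurable (fun q : ℝ × (ι → ℝ) => Function.update q.2 e q.1) := by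
  rw [measurable_pi_iff]
  intro i
  by_cases h : i = e
  · subst h
    simpa using measurable_fst
  · simp only [Function.update_of_ne h]
    exact (measurable_pi_apply i).comp measurable_snd

lemma resample (e : ι) :
    ((expMeasure 1).prod (law ι)).map (fun q => Function.update q.2 e q.1) = law ι := by
  refine Measure.eq_infinitePi _ fun s t ht => ?_
  rw [Measure.map_apply (measurable_upd e) (MeasurableSet.pi s.countable_toSet fun i _ => ht i)]
  by_cases he : e ∈ s
  · have h1 : (fun q : ℝ × (ι → ℝ) => Function.update q.2 e q.1) ⁻¹' ((s : Set ι).pi t)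
        = (t e) ×ˢ (((s.erase e : Finset ι) : Set ι).pi t) := by
      ext q
      simp only [Set.mem_preimage, Set.mem_pi, Finset.mem_coe, Set.mem_prod, Finset.mem_erase]
      constructor
      · intro h
        refine ⟨by simpa using h e he, fun i hi => ?_⟩
        simpa [Function.update_of_ne hi.1] using h i hi.2
      · rintro ⟨h2, h3⟩ i hi
        by_cases hie : i = e
        · subst hie; simpa using h2
        · simpa [Function.update_of_ne hie] using h3 i ⟨hie, hi⟩
    rw [h1, Measure.prod_prod, Measure.infinitePi_pi _ (fun i _ => ht i),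
      Finset.mul_prod_erase s (fun i => expMeasure 1 (t i)) he]
  · have h1 : (fun q : ℝ × (ι → ℝ) => Function.update q.2 e q.1) ⁻¹' ((s : Set ι).pi t)
        = Set.univ ×ˢ ((s : Set ι).pi t) := by
      ext q
      simp only [Set.mem_preimage, Set.mem_pi, Finset.mem_coe, Set.mem_prod, Set.mem_univ,
        true_and]
      refine forall₂_congr fun i hi => ?_
      have hie : i ≠ e := fun h => he (h ▸ hi)
      simp [Function.update_of_ne hie]
    rw [h1, Measure.prod_prod, Measure.infinitePi_pi _ (fun i _ => ht i)]
    simp

lemma lintegral_resample (e : ι) {F : (ι → ℝ) → ℝ≥0∞} (hF : Measurable F) :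
    ∫⁻ ω, F ω ∂(law ι) = ∫⁻ ω, ∫⁻ x, F (Function.update ω e x) ∂(expMeasure 1) ∂(law ι) := by
  conv_lhs => rw [← resample e]
  rw [lintegral_map hF (measurable_upd e),
    lintegral_prod_symm (fun q : ℝ × (ι → ℝ) => F (Function.update q.2 e q.1))
      (hF.comp (measurable_upd e)).aemeasurable]

lemma exp_shift (s : ℝ) (hs : 0 ≤ s) {g : ℝ → ℝ≥0∞} (hg : Measurable g) :
    ∫⁻ x, (Set.Ici s).indicator g x ∂(expMeasure 1)
      = ENNReal.ofReal (Real.exp (-s)) * ∫⁻ x, g (x + s) ∂(expMeasure 1) := by
  have hpdf : Measurable (exponentialPDF 1) := (measurable_exponentialPDFReal 1).ennreal_ofReal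
  have h0 : expMeasure 1 = volume.withDensity (exponentialPDF 1) := rfl
  have hgs : Measurable (fun x => g (x + s)) := hg.comp (measurable_add_const s)
  rw [h0, lintegral_withDensity_eq_lintegral_mul _ hpdf (hg.indicator measurableSet_Ici),
    lintegral_withDensity_eq_lintegral_mul _ hpdf hgs,
    ← lintegral_const_mul _ (hpdf.mul hgs),
    ← lintegral_add_right_eq_self _ s]
  refine lintegral_congr fun x => ?_
  simp only [Pi.mul_apply]
  by_cases hx : 0 ≤ x
  · rw [Set.indicator_of_mem (by simpa using hx), exponentialPDF_of_nonneg (by linarith),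
      exponentialPDF_of_nonneg hx, ← mul_assoc, ← ENNReal.ofReal_mul (Real.exp_pos _).le]
    congr 2
    rw [one_mul, one_mul, one_mul, one_mul, ← Real.exp_add]
    congr 1
    ring
  · push Not at hx
    rw [Set.indicator_of_notMem (by simpa using hx), exponentialPDF_of_neg hx]
    simp

lemma exp_Ici (s : ℝ) (hs : 0 ≤ s) :
    expMeasure 1 (Set.Ici s) = ENNReal.ofReal (Real.exp (-s)) := by
  have := exp_shift s hs (g := fun _ => 1) measurable_const
  simpa using this

lemma exp_Iio (s : ℝ) (hs : 0 ≤ s) : expMeasure 1 (Set.Iio s) ≤ ENNReal.ofReal s := by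
  have h1 : Set.Iio s = (Set.Ici s)ᶜ := by ext; simp
  rw [h1, prob_compl_eq_one_sub measurableSet_Ici, exp_Ici s hs, ← ENNReal.ofReal_one,
    ← ENNReal.ofReal_sub _ (Real.exp_pos _).le]
  exact ENNReal.ofReal_le_ofReal (by linarith [Real.add_one_le_exp (-s)])

lemma measurable_shift (e : ι) (s : ℝ) :
    Measurable (fun ω : ι → ℝ => Function.update ω e (ω e + s)) := by
  have h : Measurable (fun ω : ι → ℝ => ((ω e + s, ω) : ℝ × (ι → ℝ))) := by fun_prop
  exact (measurable_upd e).comp h

lemma shift_one (e : ι) (s : ℝ) (hs : 0 ≤ s) {F : (ι → ℝ) → ℝ≥0∞} (hF : Measurable F) :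
    ∫⁻ ω, (if s ≤ ω e then F ω else 0) ∂(law ι)
      = ENNReal.ofReal (Real.exp (-s)) * ∫⁻ ω, F (Function.update ω e (ω e + s)) ∂(law ι) := by
  have hF1 : Measurable (fun ω : ι → ℝ => if s ≤ ω e then F ω else 0) :=
    Measurable.ite (measurableSet_le measurable_const (measurable_pi_apply e)) hF measurable_const
  have hm : Measurable (fun ω : ι → ℝ => Function.update ω e (ω e + s)) :=
    measurable_shift e s
  have hFm : Measurable (fun ω : ι → ℝ => F (Function.update ω e (ω e + s))) := hF.comp hm
  rw [lintegral_resample e hF1, lintegral_resample e hFm, ← lintegral_const_mul]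
  · refine lintegral_congr fun ω => ?_
    have hg : Measurable (fun x : ℝ => F (Function.update ω e x)) :=
      hF.comp ((measurable_upd e).comp (measurable_id.prodMk measurable_const))
    have := exp_shift s hs hg
    simp only [Function.update_self, Function.update_idem]
    rw [← this]
    refine lintegral_congr fun x => ?_
    simp [Set.indicator_apply]
  · have h2 : Measurable (fun q : (ι → ℝ) × ℝ =>
        F (Function.update (Function.update q.1 e q.2) e ((Function.update q.1 e q.2) e + s))) :=
      hFm.comp ((measurable_upd e).comp (measurable_snd.prodMk measurable_fst))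
    exact h2.lintegral_prod_right'

lemma shift_many (s : ℝ) (hs : 0 ≤ s) (E : Finset ι) :
    ∀ {F : (ι → ℝ) → ℝ≥0∞}, Measurable F →
    ∫⁻ ω, (if ∀ e ∈ E, s ≤ ω e then F ω else 0) ∂(law ι)
      = ENNReal.ofReal (Real.exp (-s)) ^ E.card *
        ∫⁻ ω, F (fun i => ω i + if i ∈ E then s else 0) ∂(law ι) := by
  induction E using Finset.induction_on with
  | empty => intro F hF; simp
  | insert e E he ih =>
    intro F hF
    have hF1 : Measurable (fun ω : ι → ℝ => if ∀ i ∈ E, s ≤ ω i then F ω else 0) := by
      refine Measurable.ite ?_ hF measurable_const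
      have : {a : ι → ℝ | ∀ i ∈ E, s ≤ a i} = ⋂ i ∈ E, {a | s ≤ a i} := by ext; simp
      rw [this]
      exact MeasurableSet.biInter E.countable_toSet fun i _ =>
        measurableSet_le measurable_const (measurable_pi_apply i)
    have hm : Measurable (fun ω : ι → ℝ => Function.update ω e (ω e + s)) :=
      measurable_shift e s
    have h1 : ∀ ω : ι → ℝ, (if ∀ i ∈ insert e E, s ≤ ω i then F ω else 0)
        = if s ≤ ω e then (if ∀ i ∈ E, s ≤ ω i then F ω else 0) else 0 := by
      intro ω
      simp only [Finset.mem_insert, forall_eq_or_imp]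
      by_cases h : s ≤ ω e <;> simp [h]
    simp only [h1]
    rw [shift_one e s hs hF1]
    have h2 : ∀ ω : ι → ℝ, (if ∀ i ∈ E, s ≤ (Function.update ω e (ω e + s)) i then
          F (Function.update ω e (ω e + s)) else 0)
        = if ∀ i ∈ E, s ≤ ω i then (F ∘ fun ω => Function.update ω e (ω e + s)) ω else 0 := by
      intro ω
      have : (∀ i ∈ E, s ≤ (Function.update ω e (ω e + s)) i) ↔ ∀ i ∈ E, s ≤ ω i := by
        refine forall₂_congr fun i hi => ?_
        have hie : i ≠ e := fun h => he (h ▸ hi)
        rw [Function.update_of_ne hie]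
      simp only [this, Function.comp]
    simp only [h2]
    rw [ih (hF.comp hm), Finset.card_insert_of_notMem he, pow_succ', mul_assoc]
    congr 2
    refine lintegral_congr fun ω => ?_
    simp only [Function.comp]
    congr 1
    funext i
    by_cases hie : i = e
    · subst hie; simp [he]
    · rw [Function.update_of_ne hie]; simp [hie]

end

/-- The passage to the limit `s → 0`. -/
lemma real_limit (k : ℕ) (a b : ℝ) (ha0 : 0 ≤ a) (hb0 : 0 ≤ b)
    (mainR : ∀ s : ℝ, 0 < s → a ≤ Real.exp (-s) ^ k * (a + s) + s * (k * s + b)) :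
    (k : ℝ) * a ≤ 1 + b := by
  by_contra hcon
  push Not at hcon
  have hk0 : (0 : ℝ) ≤ k := Nat.cast_nonneg _
  have hlow : ∀ s : ℝ, 0 < s → (k : ℝ) * a ≤ 1 + b + s * (k + a * k ^ 2) := by
    intro s hs
    have h1 := mainR s hs
    have h2 : Real.exp (-s) ^ k = Real.exp (-(k * s)) := by
      rw [← Real.exp_nat_mul]; congr 1; ring
    rw [h2] at h1
    have hks : 0 ≤ k * s := by positivity
    have h3 : Real.exp (-(k * s)) ≤ 1 - k * s + (k * s) ^ 2 := by
      have h5 : 1 + k * s ≤ Real.exp (k * s) := by linarith [Real.add_one_le_exp (k * s)]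
      have h6 : Real.exp (-(k * s)) * Real.exp (k * s) = 1 := by
        rw [← Real.exp_add]; simp
      have h7 : 0 < Real.exp (-(k * s)) := Real.exp_pos _
      have h8 : Real.exp (-(k * s)) * (1 + k * s) ≤ 1 := by nlinarith
      nlinarith [mul_nonneg hks hks, mul_nonneg (mul_nonneg hks hks) hks,
        mul_nonneg hks h7.le]
    have h4 : Real.exp (-(k * s)) ≤ 1 := Real.exp_le_one_iff.2 (by linarith)
    have h9 : a ≤ (1 - k * s + (k * s) ^ 2) * a + s + s * (k * s + b) := by
      have h12 : Real.exp (-(k * s)) * a ≤ (1 - k * s + (k * s) ^ 2) * a :=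
        mul_le_mul_of_nonneg_right h3 ha0
      have h13 : Real.exp (-(k * s)) * s ≤ 1 * s := mul_le_mul_of_nonneg_right h4 hs.le
      linarith
    have h10 : s * (k * a) ≤ s * (1 + b + s * (k + a * k ^ 2)) := by
      linarith
    exact le_of_mul_le_mul_left h10 hs
  have hpos : 0 < (k : ℝ) + a * k ^ 2 + 1 := by positivity
  have := hlow (((k : ℝ) * a - (1 + b)) / 2 / (k + a * k ^ 2 + 1))
    (by apply div_pos _ hpos; linarith)
  have h11 : ((k : ℝ) * a - (1 + b)) / 2 / (k + a * k ^ 2 + 1) * (k + a * k ^ 2)
      ≤ ((k : ℝ) * a - (1 + b)) / 2 := by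
    rw [div_mul_eq_mul_div, div_le_iff₀ hpos]
    linarith
  linarith

section

variable {V : Type} (G : SimpleGraph V)

/-- The passage time as a function of real weights. -/
noncomputable def TT (A S : Set V) (ω : Sym2 V → ℝ) : ℝ≥0∞ :=
  tau G (fun e => ENNReal.ofReal (ω e)) A S

lemma countable_walk [Countable V] (x y : V) : Countable (G.Walk x y) := by
  have : Function.Injective (fun p : G.Walk x y => p.support) := fun p q h =>
    SimpleGraph.Walk.ext_support h
  exact this.countable

lemma measurable_TT [Countable V] (A S : Set V) : Measurable (TT G A S) := by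
  unfold TT tau
  have hc := countable_walk G
  refine Measurable.iInf fun x => Measurable.iInf fun _ => Measurable.iInf fun y =>
    Measurable.iInf fun _ => Measurable.iInf fun p => ?_
  unfold cost
  induction p.edges with
  | nil => simp
  | cons a l ih =>
    simp only [List.map_cons, List.sum_cons]
    exact ((measurable_pi_apply a).ennreal_ofReal).add ih

/-- The expected passage time. -/
noncomputable def ET (A S : Set V) : ℝ≥0∞ := ∫⁻ ω, TT G A S ω ∂(law (Sym2 V))

lemma ET_anti {A B S : Set V} (h : A ⊆ B) : ET G B S ≤ ET G A S :=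
  lintegral_mono fun _ => tau_anti h

/-- The one-step inequality: the first of the clocks in `E` rings after a time of mean
`1 / E.card`, and each is equally likely to be the first. -/
theorem step [Countable V] (A S : Set V) (E : Finset (V × V))
    (hE : ∀ q ∈ E, q.1 ∈ A ∧ q.2 ∉ A ∧ G.Adj q.1 q.2) (hfin : ET G A S ≠ ⊤) :
    (E.card : ℝ≥0∞) * ET G A S ≤ 1 + ∑ q ∈ E, ET G (insert q.2 A) S := by
  classical
  by_cases htop : ∑ q ∈ E, ET G (insert q.2 A) S = ⊤
  · rw [htop]; simp
  set ed : V × V → Sym2 V := fun q => s(q.1, q.2) with hed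
  have hinj : Set.InjOn ed E := by
    rintro ⟨a, b⟩ hq ⟨c, d⟩ hr h
    have h1 := hE _ hq
    have h2 := hE _ hr
    simp only [hed, Sym2.eq_iff] at h
    rcases h with ⟨h3, h4⟩ | ⟨h3, h4⟩
    · simp_all
    · exact absurd (h3 ▸ h1.1) h2.2.1
  set I : Finset (Sym2 V) := E.image ed with hI
  have hcard : I.card = E.card := Finset.card_image_of_injOn hinj
  obtain ⟨k, hk⟩ : ∃ k : ℕ, E.card = k := ⟨_, rfl⟩
  rw [hk] at hcard ⊢
  -- the inequality for fixed `s`
  have main : ∀ s : ℝ, 0 < s → ET G A S ≤
      ENNReal.ofReal (Real.exp (-s)) ^ k * (ET G A S + ENNReal.ofReal s) +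
        ENNReal.ofReal s * ∑ q ∈ E, (ENNReal.ofReal s + ET G (insert q.2 A) S) := by
    intro s hs
    have hmT := measurable_TT G A S
    have hsplit : ∀ ω : Sym2 V → ℝ, TT G A S ω ≤
        (if ∀ e ∈ I, s ≤ ω e then TT G A S ω else 0) +
          ∑ q ∈ E, (if ω (ed q) < s then TT G A S ω else 0) := by
      intro ω
      by_cases h : ∀ e ∈ I, s ≤ ω e
      · rw [if_pos h]; exact le_self_add
      · rw [if_neg h, zero_add]
        push Not at h
        obtain ⟨e, he, hes⟩ := h
        rw [hI, Finset.mem_image] at he
        obtain ⟨q, hq, rfl⟩ := he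
        refine le_trans ?_ (Finset.single_le_sum (f := fun q => if ω (ed q) < s then TT G A S ω
          else 0) (fun _ _ => zero_le) hq)
        simp [hes]
    have hmI : Measurable (fun ω : Sym2 V → ℝ => if ∀ e ∈ I, s ≤ ω e then TT G A S ω else 0) := by
      refine Measurable.ite ?_ hmT measurable_const
      have : {a : Sym2 V → ℝ | ∀ i ∈ I, s ≤ a i} = ⋂ i ∈ I, {a | s ≤ a i} := by ext; simp
      rw [this]
      exact MeasurableSet.biInter I.countable_toSet fun i _ =>
        measurableSet_le measurable_const (measurable_pi_apply i)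
    calc ET G A S ≤ ∫⁻ ω, ((if ∀ e ∈ I, s ≤ ω e then TT G A S ω else 0) +
          ∑ q ∈ E, (if ω (ed q) < s then TT G A S ω else 0)) ∂(law (Sym2 V)) :=
            lintegral_mono hsplit
      _ = ∫⁻ ω, (if ∀ e ∈ I, s ≤ ω e then TT G A S ω else 0) ∂(law (Sym2 V)) +
          ∑ q ∈ E, ∫⁻ ω, (if ω (ed q) < s then TT G A S ω else 0) ∂(law (Sym2 V)) := by
        rw [lintegral_add_left hmI, lintegral_finsetSum]
        intro q _
        exact Measurable.ite (measurableSet_lt (measurable_pi_apply _) measurable_const) hmT
          measurable_const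
      _ ≤ _ := by
        refine add_le_add ?_ ?_
        · rw [shift_many s hs.le I hmT, hcard]
          refine mul_le_mul_right ?_ _
          have : ∀ ω : Sym2 V → ℝ, TT G A S (fun i => ω i + if i ∈ I then s else 0) ≤
              TT G A S ω + ENNReal.ofReal s := by
            intro ω
            refine tau_add_le (I : Set (Sym2 V)) (ENNReal.ofReal s) _ ?_ ?_ ?_
            · intro e he
              have : e ∈ I := he
              simp only [this, if_true]
              exact ENNReal.ofReal_add_le
            · intro e he
              have : e ∉ I := he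
              simp [this]
            · intro e he
              have : e ∈ I := he
              rw [hI, Finset.mem_image] at this
              obtain ⟨q, hq, rfl⟩ := this
              exact ⟨q.1, by simp [hed], (hE q hq).1⟩
          refine (lintegral_mono this).trans ?_
          rw [lintegral_add_right _ measurable_const]
          simp [ET]
        · rw [Finset.mul_sum]
          refine Finset.sum_le_sum fun q hq => ?_
          set B := insert q.2 A with hB
          have hmB := measurable_TT G B S
          have h1 : ∀ ω : Sym2 V → ℝ, (if ω (ed q) < s then TT G A S ω else 0) ≤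
              if ω (ed q) < s then ENNReal.ofReal s + TT G B S ω else 0 := by
            intro ω
            by_cases h : ω (ed q) < s
            · simp only [h, if_true]
              refine (tau_insert _ (hE q hq).1 (hE q hq).2.2).trans ?_
              exact add_le_add (ENNReal.ofReal_le_ofReal h.le) le_rfl
            · simp [h]
          have h2 : ∀ (ω : Sym2 V → ℝ) (x : ℝ), TT G B S (Function.update ω (ed q) x)
              = TT G B S ω := by
            intro ω x
            refine tau_congr fun e he => ?_
            have : e ≠ ed q := by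
              rintro rfl
              obtain ⟨v, hv, hvB⟩ := he
              simp only [hed, Sym2.mem_iff] at hv
              rcases hv with rfl | rfl
              · exact hvB (Set.mem_insert_of_mem _ (hE q hq).1)
              · exact hvB (Set.mem_insert _ _)
            rw [Function.update_of_ne this]
          refine (lintegral_mono h1).trans ?_
          have hm3 : Measurable (fun ω : Sym2 V → ℝ =>
              if ω (ed q) < s then ENNReal.ofReal s + TT G B S ω else 0) :=
            Measurable.ite (measurableSet_lt (measurable_pi_apply _) measurable_const)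
              (measurable_const.add hmB) measurable_const
          rw [lintegral_resample (ed q) hm3]
          have h4 : ∀ ω : Sym2 V → ℝ, ∫⁻ x, (if (Function.update ω (ed q) x) (ed q) < s then
              ENNReal.ofReal s + TT G B S (Function.update ω (ed q) x) else 0) ∂(expMeasure 1)
              = (ENNReal.ofReal s + TT G B S ω) * expMeasure 1 (Set.Iio s) := by
            intro ω
            simp only [Function.update_self, h2]
            rw [← lintegral_indicator_const measurableSet_Iio]
            refine lintegral_congr fun x => ?_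
            simp [Set.indicator_apply]
          simp only [h4]
          have hm5 : Measurable (fun ω : Sym2 V → ℝ => ENNReal.ofReal s + TT G B S ω) :=
            measurable_const.add hmB
          rw [lintegral_mul_const _ hm5, lintegral_add_left measurable_const, mul_comm]
          refine mul_le_mul' (exp_Iio s hs.le) ?_
          simp [ET]
  -- pass to real numbers
  set a := (ET G A S).toReal with ha
  have haE : ET G A S = ENNReal.ofReal a := (ENNReal.ofReal_toReal hfin).symm
  have ha0 : 0 ≤ a := ENNReal.toReal_nonneg
  have hb : ∀ q ∈ E, ET G (insert q.2 A) S ≠ ⊤ := by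
    intro q hq h
    exact htop (ENNReal.sum_eq_top.2 ⟨q, hq, h⟩)
  set b := (∑ q ∈ E, ET G (insert q.2 A) S).toReal with hbdef
  have hbE : ∑ q ∈ E, ET G (insert q.2 A) S = ENNReal.ofReal b := (ENNReal.ofReal_toReal htop).symm
  have hb0 : 0 ≤ b := ENNReal.toReal_nonneg
  have mainR : ∀ s : ℝ, 0 < s → a ≤ Real.exp (-s) ^ k * (a + s) + s * (k * s + b) := by
    intro s hs
    have := main s hs
    rw [Finset.sum_add_distrib, Finset.sum_const, nsmul_eq_mul, hk, hbE, haE,
      ← ENNReal.ofReal_add ha0 hs.le, ← ENNReal.ofReal_pow (Real.exp_pos _).le,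
      ← ENNReal.ofReal_mul (by positivity),
      ← ENNReal.ofReal_natCast, ← ENNReal.ofReal_mul (by positivity),
      ← ENNReal.ofReal_add (by positivity) hb0, ← ENNReal.ofReal_mul hs.le,
      ← ENNReal.ofReal_add (by positivity) (by positivity)] at this
    exact (ENNReal.ofReal_le_ofReal_iff (by positivity)).1 this
  have final : (k : ℝ) * a ≤ 1 + b := real_limit k a b ha0 hb0 mainR
  rw [hbE, haE, ← ENNReal.ofReal_natCast, ← ENNReal.ofReal_mul (by positivity),
    ← ENNReal.ofReal_one, ← ENNReal.ofReal_add zero_le_one hb0]
  exact ENNReal.ofReal_le_ofReal final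

end

end Pool.Agent.Helper820_Eden
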