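import Mathlib
import Pool.Agent.Helper820_Eden.Meas
import Pool.Agent.Helper820_Eden.Iso

set_option autoImplicit false
open MeasureTheory ProbabilityTheory
open scoped ENNReal

namespace Pool.Agent.Helper820_Eden

/-- Laplace transform of the exponential law. -/
lemma laplace (θ : ℝ) (hθ : -1 < θ) :
    ∫⁻ x, ENNReal.ofReal (Real.exp (-(θ * x))) ∂(expMeasure 1) = ENNReal.ofReal (1 / (1 + θ)) := by
  have hpdf : ∀ r, Measurable (exponentialPDF r) := fun r =>
    (measurable_exponentialPDFReal r).ennreal_ofReal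
  have h0 : expMeasure 1 = volume.withDensity (exponentialPDF 1) := rfl
  have hm : Measurable (fun x : ℝ => ENNReal.ofReal (Real.exp (-(θ * x)))) := by fun_prop
  have hpos : 0 < 1 + θ := by linarith
  rw [h0, lintegral_withDensity_eq_lintegral_mul _ (hpdf 1) hm,
    ← mul_one (ENNReal.ofReal (1 / (1 + θ))), ← lintegral_exponentialPDF_eq_one hpos,
    ← lintegral_const_mul _ (hpdf _)]
  refine lintegral_congr fun x => ?_
  simp only [Pi.mul_apply]
  by_cases hx : 0 ≤ x
  · rw [exponentialPDF_of_nonneg hx, exponentialPDF_of_nonneg hx,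
      ← ENNReal.ofReal_mul (by positivity), ← ENNReal.ofReal_mul (by positivity)]
    congr 1
    rw [one_mul, one_mul, ← Real.exp_add, ← mul_assoc, one_div, inv_mul_cancel₀ hpos.ne', one_mul]
    congr 1
    ring
  · push Not at hx
    rw [exponentialPDF_of_neg hx, exponentialPDF_of_neg hx]
    simp

lemma mean_fin : ∫⁻ x, ENNReal.ofReal x ∂(expMeasure 1) ≠ ⊤ := by
  have h := laplace (-(1 / 2)) (by norm_num)
  have h1 : ∫⁻ x, ENNReal.ofReal x ∂(expMeasure 1) ≤
      ∫⁻ x, ENNReal.ofReal 2 * ENNReal.ofReal (Real.exp (-(-(1 / 2) * x))) ∂(expMeasure 1) := by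
    refine lintegral_mono fun x => ?_
    simp only
    rw [← ENNReal.ofReal_mul (by norm_num)]
    refine ENNReal.ofReal_le_ofReal ?_
    have := Real.add_one_le_exp (1 / 2 * x)
    have h2 : -(-(1 / 2) * x) = 1 / 2 * x := by ring
    rw [h2]
    linarith
  have hm : Measurable (fun x : ℝ => ENNReal.ofReal (Real.exp (-(-(1 / 2) * x)))) := by fun_prop
  rw [lintegral_const_mul _ hm, h] at h1
  exact ne_top_of_le_ne_top (ENNReal.mul_ne_top ENNReal.ofReal_ne_top ENNReal.ofReal_ne_top) h1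

/-- The nearest-neighbour cubic lattice. -/
abbrev latG (ι : Type) [Fintype ι] : SimpleGraph (ι → ℤ) :=
  SimpleGraph.fromRel (fun y z : ι → ℤ => ∑ i, |y i - z i| = 1)

variable {ι : Type} [Fintype ι] [DecidableEq ι]

/-- Signed unit vectors. -/
def sg (t : ι × Bool) : ι → ℤ := Pi.single t.1 (if t.2 then 1 else -1)

lemma sg_self (t : ι × Bool) : sg t t.1 = if t.2 then 1 else -1 := by simp [sg]

lemma sg_ne {t : ι × Bool} {i : ι} (h : i ≠ t.1) : sg t i = 0 := by simp [sg, h]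

lemma sg_injective : Function.Injective (sg : ι × Bool → ι → ℤ) := by
  rintro ⟨i, b⟩ ⟨j, c⟩ h
  have hij : i = j := by
    by_contra hne
    have h1 := congrFun h i
    rw [sg_ne (t := (j, c)) hne] at h1
    have h2 := sg_self (i, b)
    simp only at h2
    rw [h2] at h1
    split_ifs at h1 <;> omega
  subst hij
  have h1 := congrFun h i
  have h2 := sg_self (i, b)
  have h3 := sg_self (i, c)
  simp only at h2 h3
  rw [h2, h3] at h1
  cases b <;> cases c <;> simp_all

lemma adj_iff {y z : ι → ℤ} : (latG ι).Adj y z ↔ ∃ t : ι × Bool, z = y + sg t := by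
  rw [SimpleGraph.fromRel_adj]
  constructor
  · rintro ⟨hne, hsum⟩
    have hs : ∑ i, |z i - y i| = 1 := by
      rcases hsum with h | h
      · rw [← h]
        exact Finset.sum_congr rfl fun i _ => abs_sub_comm _ _
      · exact h
    obtain ⟨i, hi⟩ : ∃ i, z i ≠ y i := by
      by_contra hcon
      push Not at hcon
      exact hne (funext fun i => (hcon i).symm)
    have h1 := Finset.add_sum_erase Finset.univ (fun i => |z i - y i|) (Finset.mem_univ i)
    have h2 : 1 ≤ |z i - y i| := Int.one_le_abs (sub_ne_zero.2 hi)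
    have h3 : 0 ≤ ∑ j ∈ Finset.univ.erase i, |z j - y j| :=
      Finset.sum_nonneg fun _ _ => abs_nonneg _
    have h4 : ∑ j ∈ Finset.univ.erase i, |z j - y j| = 0 := by omega
    have h5 : |z i - y i| = 1 := by omega
    rw [Finset.sum_eq_zero_iff_of_nonneg fun _ _ => abs_nonneg _] at h4
    have h6 : ∀ j, j ≠ i → z j = y j := by
      intro j hj
      have := h4 j (Finset.mem_erase.2 ⟨hj, Finset.mem_univ _⟩)
      rw [abs_eq_zero] at this
      omega
    rcases (abs_eq (by norm_num : (0 : ℤ) ≤ 1)).1 h5 with h | h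
    · refine ⟨(i, true), funext fun j => ?_⟩
      by_cases hj : j = i
      · subst hj; simp [sg]; omega
      · simp [sg, hj, h6 j hj]
    · refine ⟨(i, false), funext fun j => ?_⟩
      by_cases hj : j = i
      · subst hj; simp [sg]; omega
      · simp [sg, hj, h6 j hj]
  · rintro ⟨⟨i, b⟩, rfl⟩
    refine ⟨?_, Or.inl ?_⟩
    · intro h
      have h1 := congrFun h i
      have h2 := sg_self (i, b)
      simp only at h2
      rw [Pi.add_apply, h2] at h1
      split_ifs at h1 <;> omega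
    · rw [Finset.sum_eq_single i]
      · have h2 := sg_self (i, b)
        simp only at h2
        rw [Pi.add_apply, h2]
        split_ifs <;> simp
      · intro j _ hj
        rw [Pi.add_apply, sg_ne hj]
        simp
      · simp

lemma adj_sg (y : ι → ℤ) (t : ι × Bool) : (latG ι).Adj y (y + sg t) := adj_iff.2 ⟨t, rfl⟩

lemma ET_insert (A S : Set (ι → ℤ)) {u v : ι → ℤ} (hu : u ∈ A) (h : (latG ι).Adj u v) :
    ET (latG ι) A S ≤ ∫⁻ x, ENNReal.ofReal x ∂(expMeasure 1) + ET (latG ι) (insert v A) S := by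
  have h1 : ∀ ω : Sym2 (ι → ℤ) → ℝ, TT (latG ι) A S ω ≤
      ENNReal.ofReal (ω s(u, v)) + TT (latG ι) (insert v A) S ω := fun ω =>
    tau_insert _ hu h
  unfold ET
  refine (lintegral_mono h1).trans ?_
  have hm : Measurable (fun ω : Sym2 (ι → ℤ) → ℝ => ENNReal.ofReal (ω s(u, v))) :=
    (measurable_pi_apply _).ennreal_ofReal
  rw [lintegral_add_left hm]
  refine add_le_add ?_ le_rfl
  have h2 := (measurePreserving_eval_infinitePi (fun _ : Sym2 (ι → ℤ) => expMeasure 1)
    s(u, v)).lintegral_comp (f := fun x : ℝ => ENNReal.ofReal x) (by fun_prop)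
  exact h2.le

/-- Finiteness of the expected time to reach a hyperplane. -/
lemma ET_ne_top (i₀ : ι) (N : ℤ) : ∀ (k : ℕ) (A : Set (ι → ℤ)), (∃ x ∈ A, x i₀ = N - k) →
    ET (latG ι) A {z | z i₀ = N} ≠ ⊤ := by
  intro k
  induction k with
  | zero =>
    rintro A ⟨x, hxA, hx⟩
    have h0 : ∀ ω : Sym2 (ι → ℤ) → ℝ, TT (latG ι) A {z | z i₀ = N} ω = 0 := by
      intro ω
      refine le_antisymm ?_ zero_le
      refine (tau_le (w := fun e => ENNReal.ofReal (ω e)) hxA (by simpa using hx)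
        (SimpleGraph.Walk.nil : (latG ι).Walk x x)).trans ?_
      simp [cost]
    unfold ET
    simp [h0]
  | succ k ih =>
    rintro A ⟨x, hxA, hx⟩
    have h1 := ET_insert A {z | z i₀ = N} hxA (adj_sg x (i₀, true))
    refine ne_top_of_le_ne_top (ENNReal.add_ne_top.2 ⟨mean_fin, ?_⟩) h1
    refine ih _ ⟨_, Set.mem_insert _ _, ?_⟩
    have h3 : sg (i₀, true) i₀ = 1 := by simp [sg]
    rw [Pi.add_apply, hx, h3]
    push_cast
    ring

/-- Edges leaving a finite set, excluding those in direction `i₀`. -/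
def bdry (i₀ : ι) (B : Finset (ι → ℤ)) : Finset ((ι → ℤ) × (ι → ℤ)) :=
  ((B ×ˢ ((Finset.univ.erase i₀) ×ˢ (Finset.univ : Finset Bool))).filter
    (fun t => t.1 + sg t.2 ∉ B)).image (fun t => (t.1, t.1 + sg t.2))

lemma mem_bdry {i₀ : ι} {B : Finset (ι → ℤ)} {q : (ι → ℤ) × (ι → ℤ)} (h : q ∈ bdry i₀ B) :
    q.1 ∈ B ∧ q.2 ∉ B ∧ (latG ι).Adj q.1 q.2 ∧ q.2 i₀ = q.1 i₀ := by
  simp only [bdry, Finset.mem_image, Finset.mem_filter, Finset.mem_product] at h
  obtain ⟨t, ⟨⟨h1, h2, -⟩, h3⟩, rfl⟩ := h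
  refine ⟨h1, h3, adj_sg _ _, ?_⟩
  have h4 : i₀ ≠ t.2.1 := fun h => (Finset.mem_erase.1 h2).1 h.symm
  simp [sg_ne h4]

lemma card_bdry (i₀ : ι) (B : Finset (ι → ℤ)) :
    2 * (Fintype.card ι - 1) * B.card ≤ (bdry i₀ B).card + 2 * EE B.card := by
  have hinj : Function.Injective (fun t : (ι → ℤ) × (ι × Bool) => (t.1, t.1 + sg t.2)) := by
    rintro ⟨x, s⟩ ⟨y, t⟩ h
    simp only [Prod.mk.injEq] at h
    obtain ⟨rfl, h2⟩ := h
    rw [sg_injective (add_left_cancel h2)]
  have h1 : (bdry i₀ B).card = ((B ×ˢ ((Finset.univ.erase i₀) ×ˢ (Finset.univ : Finset Bool))).filter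
    (fun t => t.1 + sg t.2 ∉ B)).card := Finset.card_image_of_injective _ hinj
  have h2 : (B ×ˢ ((Finset.univ.erase i₀) ×ˢ (Finset.univ : Finset Bool))).card
      = 2 * (Fintype.card ι - 1) * B.card := by
    rw [Finset.card_product, Finset.card_product, Finset.card_erase_of_mem (Finset.mem_univ _),
      Finset.card_univ, Finset.card_univ, Fintype.card_bool]
    ring
  have h3 : ((B ×ˢ ((Finset.univ.erase i₀) ×ˢ (Finset.univ : Finset Bool))).filter
    (fun t => t.1 + sg t.2 ∈ B)).card ≤ 2 * inner B := by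
    have h4 : ((B ×ˢ ((Finset.univ.erase i₀) ×ˢ (Finset.univ : Finset Bool))).filter
        (fun t => t.1 + sg t.2 ∈ B)).card
        = ∑ s ∈ (Finset.univ.erase i₀) ×ˢ (Finset.univ : Finset Bool),
          (B.filter (fun x => x + sg s ∈ B)).card := by
      rw [Finset.card_filter, Finset.sum_product_right]
      refine Finset.sum_congr rfl fun s _ => ?_
      rw [Finset.card_filter]
    rw [h4, Finset.sum_product]
    have h5 : ∀ i ∈ Finset.univ.erase i₀, ∑ b : Bool, (B.filter (fun x => x + sg (i, b) ∈ B)).card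
        = 2 * (B.filter (fun x => x + Pi.single i 1 ∈ B)).card := by
      intro i _
      rw [Fintype.sum_bool, two_mul]
      have h6 := inner_rev B i
      have h7 : ∀ x : ι → ℤ, x + sg (i, false) = x - Pi.single i 1 := by
        intro x
        simp only [sg, sub_eq_add_neg, ← Pi.single_neg]
        simp
      have h8 : ∀ x : ι → ℤ, x + sg (i, true) = x + Pi.single i 1 := by
        intro x
        simp [sg]
      simp only [h7, h8]
      rw [h6]
    rw [Finset.sum_congr rfl h5, ← Finset.mul_sum]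
    unfold inner
    refine Nat.mul_le_mul_left _ ?_
    exact Finset.sum_le_sum_of_subset (Finset.erase_subset _ _)
  have h4 := Finset.card_filter_add_card_filter_not
    (s := B ×ˢ ((Finset.univ.erase i₀) ×ˢ (Finset.univ : Finset Bool))) (fun t => t.1 + sg t.2 ∈ B)
  have h5 := inner_le _ B le_rfl
  rw [h2] at h4
  rw [h1]
  omega

/-- Edges from `P` into the next layer, avoiding `Q`. -/
def fwd (t : ι × Bool) (P Q : Finset (ι → ℤ)) : Finset ((ι → ℤ) × (ι → ℤ)) :=
  (P.filter (fun x => x + sg t ∉ Q)).image (fun x => (x, x + sg t))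

lemma mem_fwd {t : ι × Bool} {P Q : Finset (ι → ℤ)} {q : (ι → ℤ) × (ι → ℤ)}
    (h : q ∈ fwd t P Q) :
    q.1 ∈ P ∧ q.2 ∉ Q ∧ (latG ι).Adj q.1 q.2 ∧ q.2 = q.1 + sg t := by
  simp only [fwd, Finset.mem_image, Finset.mem_filter] at h
  obtain ⟨x, ⟨h1, h2⟩, rfl⟩ := h
  exact ⟨h1, h2, adj_sg _ _, rfl⟩

lemma card_fwd (t : ι × Bool) (P Q : Finset (ι → ℤ)) : P.card ≤ (fwd t P Q).card + Q.card := by
  have hinj : Function.Injective (fun x : ι → ℤ => (x, x + sg t)) := fun x y h =>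
    (Prod.mk.inj h).1
  have h1 : (fwd t P Q).card = (P.filter (fun x => x + sg t ∉ Q)).card :=
    Finset.card_image_of_injective _ hinj
  have h2 := Finset.card_filter_add_card_filter_not (s := P) (fun x => x + sg t ∈ Q)
  have h3 : (P.filter (fun x => x + sg t ∈ Q)).card ≤ Q.card := by
    refine Finset.card_le_card_of_injOn (fun x => x + sg t) ?_ ?_
    · intro x hx
      exact (Finset.mem_filter.1 (Finset.mem_coe.1 hx)).2
    · intro x _ y _ h
      exact add_right_cancel h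
  omega

/-- One step of the layer chain. -/
theorem layer_step (i₀ : ι) (L N : ℤ) (k : ℕ) (hN : L = N - k) (P Q : Finset (ι → ℤ))
    (hP : ∀ x ∈ P, x i₀ = L - 1) (hQ : ∀ x ∈ Q, x i₀ = L) (hQne : Q.Nonempty) (ga gb : ℕ)
    (hga : ga ≤ 2 * (Fintype.card ι - 1) * P.card + (Q.card - P.card) - 2 * EE P.card)
    (hgb : gb ≤ 2 * (Fintype.card ι - 1) * Q.card + (P.card - Q.card) - 2 * EE Q.card)
    (XF Xa Xb : ℝ≥0∞)
    (hXF : ∀ v : ι → ℤ, v i₀ = L + 1 →
      ET (latG ι) (insert v ((P : Set (ι → ℤ)) ∪ Q)) {z | z i₀ = N} ≤ XF)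
    (hXa : 0 < ga → ∀ v : ι → ℤ, v i₀ = L - 1 → v ∉ P →
      ET (latG ι) (insert v ((P : Set (ι → ℤ)) ∪ Q)) {z | z i₀ = N} ≤ Xa)
    (hXb : 0 < gb → ∀ v : ι → ℤ, v i₀ = L → v ∉ Q →
      ET (latG ι) (insert v ((P : Set (ι → ℤ)) ∪ Q)) {z | z i₀ = N} ≤ Xb) :
    ((Q.card + ga + gb : ℕ) : ℝ≥0∞) * ET (latG ι) ((P : Set (ι → ℤ)) ∪ Q) {z | z i₀ = N} ≤
      1 + (Q.card * XF + ga * Xa + gb * Xb) := by
  classical
  obtain ⟨x0, hx0⟩ := hQne
  have hfin : ET (latG ι) ((P : Set (ι → ℤ)) ∪ Q) {z | z i₀ = N} ≠ ⊤ :=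
    ET_ne_top i₀ N k _ ⟨x0, Or.inr (Finset.mem_coe.2 hx0), by rw [hQ x0 hx0, hN]⟩
  -- the three families
  set EF := fwd (i₀, true) Q ∅ with hEF
  set EA := bdry i₀ P ∪ fwd (i₀, false) Q P with hEA
  set EB := bdry i₀ Q ∪ fwd (i₀, true) P Q with hEB
  have hs1 : sg (i₀, true) i₀ = 1 := by simp [sg]
  have hs2 : sg (i₀, false) i₀ = -1 := by simp [sg]
  have hcF : EF.card = Q.card := by
    have h1 := card_fwd (i₀, true) Q ∅
    have h2 : EF.card ≤ Q.card := by
      rw [hEF]; unfold fwd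
      exact Finset.card_image_le.trans (Finset.card_filter_le _ _)
    simp only [Finset.card_empty, add_zero] at h1
    exact le_antisymm h2 h1
  have hF : ∀ q ∈ EF, q.1 ∈ Q ∧ (latG ι).Adj q.1 q.2 ∧ q.2 i₀ = L + 1 := by
    intro q hq
    obtain ⟨h1, -, h3, h4⟩ := mem_fwd hq
    refine ⟨h1, h3, ?_⟩
    rw [h4, Pi.add_apply, hQ _ h1, hs1]
  have hA : ∀ q ∈ EA, (q.1 ∈ P ∨ q.1 ∈ Q) ∧ q.2 ∉ P ∧ (latG ι).Adj q.1 q.2 ∧ q.2 i₀ = L - 1 := by
    intro q hq
    rcases Finset.mem_union.1 hq with hq | hq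
    · obtain ⟨h1, h2, h3, h4⟩ := mem_bdry hq
      exact ⟨Or.inl h1, h2, h3, by rw [h4, hP _ h1]⟩
    · obtain ⟨h1, h2, h3, h4⟩ := mem_fwd hq
      refine ⟨Or.inr h1, h2, h3, ?_⟩
      rw [h4, Pi.add_apply, hQ _ h1, hs2]; ring
  have hB : ∀ q ∈ EB, (q.1 ∈ P ∨ q.1 ∈ Q) ∧ q.2 ∉ Q ∧ (latG ι).Adj q.1 q.2 ∧ q.2 i₀ = L := by
    intro q hq
    rcases Finset.mem_union.1 hq with hq | hq
    · obtain ⟨h1, h2, h3, h4⟩ := mem_bdry hq
      exact ⟨Or.inr h1, h2, h3, by rw [h4, hQ _ h1]⟩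
    · obtain ⟨h1, h2, h3, h4⟩ := mem_fwd hq
      refine ⟨Or.inl h1, h2, h3, ?_⟩
      rw [h4, Pi.add_apply, hP _ h1, hs1]; ring
  have hcA : ga ≤ EA.card := by
    have hdis : Disjoint (bdry i₀ P) (fwd (i₀, false) Q P) := by
      rw [Finset.disjoint_left]
      intro q h1 h2
      have h3 := hP _ (mem_bdry h1).1
      have h4 := hQ _ (mem_fwd h2).1
      omega
    rw [hEA, Finset.card_union_of_disjoint hdis]
    have h1 := card_bdry i₀ P
    have h2 := card_fwd (i₀, false) Q P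
    omega
  have hcB : gb ≤ EB.card := by
    have hdis : Disjoint (bdry i₀ Q) (fwd (i₀, true) P Q) := by
      rw [Finset.disjoint_left]
      intro q h1 h2
      have h3 := hQ _ (mem_bdry h1).1
      have h4 := hP _ (mem_fwd h2).1
      omega
    rw [hEB, Finset.card_union_of_disjoint hdis]
    have h1 := card_bdry i₀ Q
    have h2 := card_fwd (i₀, true) P Q
    omega
  obtain ⟨FA, hFA, hFAc⟩ := Finset.exists_subset_card_eq hcA
  obtain ⟨FB, hFB, hFBc⟩ := Finset.exists_subset_card_eq hcB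
  have hdAB : Disjoint FA FB := by
    rw [Finset.disjoint_left]
    intro q h1 h2
    have h3 := (hA q (hFA h1)).2.2.2
    have h4 := (hB q (hFB h2)).2.2.2
    omega
  have hdF : Disjoint EF (FA ∪ FB) := by
    rw [Finset.disjoint_left]
    intro q h1 h2
    have h3 := (hF q h1).2.2
    rcases Finset.mem_union.1 h2 with h2 | h2
    · have h4 := (hA q (hFA h2)).2.2.2
      omega
    · have h4 := (hB q (hFB h2)).2.2.2
      omega
  have hstep := step (latG ι) ((P : Set (ι → ℤ)) ∪ Q) {z | z i₀ = N} (EF ∪ (FA ∪ FB)) ?_ hfin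
  · rw [Finset.card_union_of_disjoint hdF, Finset.card_union_of_disjoint hdAB, hFAc, hFBc, hcF,
      Finset.sum_union hdF, Finset.sum_union hdAB] at hstep
    rw [add_assoc Q.card ga gb]
    refine hstep.trans ?_
    rw [add_assoc ((Q.card : ℝ≥0∞) * XF)]
    refine add_le_add le_rfl (add_le_add ?_ (add_le_add ?_ ?_))
    · calc ∑ q ∈ EF, ET (latG ι) (insert q.2 ((P : Set (ι → ℤ)) ∪ Q)) {z | z i₀ = N}
          ≤ ∑ q ∈ EF, XF := Finset.sum_le_sum fun q hq => hXF _ (hF q hq).2.2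
        _ = Q.card * XF := by rw [Finset.sum_const, nsmul_eq_mul, hcF]
    · rcases Nat.eq_zero_or_pos ga with h0 | h0
      · have : FA = ∅ := Finset.card_eq_zero.1 (by omega)
        rw [this]; simp
      · calc ∑ q ∈ FA, ET (latG ι) (insert q.2 ((P : Set (ι → ℤ)) ∪ Q)) {z | z i₀ = N}
          ≤ ∑ q ∈ FA, Xa := Finset.sum_le_sum fun q hq =>
              hXa h0 _ (hA q (hFA hq)).2.2.2 (hA q (hFA hq)).2.1
        _ = ga * Xa := by rw [Finset.sum_const, nsmul_eq_mul, hFAc]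
    · rcases Nat.eq_zero_or_pos gb with h0 | h0
      · have : FB = ∅ := Finset.card_eq_zero.1 (by omega)
        rw [this]; simp
      · calc ∑ q ∈ FB, ET (latG ι) (insert q.2 ((P : Set (ι → ℤ)) ∪ Q)) {z | z i₀ = N}
          ≤ ∑ q ∈ FB, Xb := Finset.sum_le_sum fun q hq =>
              hXb h0 _ (hB q (hFB hq)).2.2.2 (hB q (hFB hq)).2.1
        _ = gb * Xb := by rw [Finset.sum_const, nsmul_eq_mul, hFBc]
  · intro q hq
    rcases Finset.mem_union.1 hq with hq | hq
    · obtain ⟨h1, h2, h3⟩ := hF q hq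
      refine ⟨Or.inr (Finset.mem_coe.2 h1), ?_, h2⟩
      rintro (h | h)
      · have := hP _ (Finset.mem_coe.1 h); omega
      · have := hQ _ (Finset.mem_coe.1 h); omega
    · rcases Finset.mem_union.1 hq with hq | hq
      · obtain ⟨h1, h2, h3, h4⟩ := hA q (hFA hq)
        refine ⟨?_, ?_, h3⟩
        · rcases h1 with h1 | h1
          · exact Or.inl (Finset.mem_coe.2 h1)
          · exact Or.inr (Finset.mem_coe.2 h1)
        · rintro (h | h)
          · exact h2 (Finset.mem_coe.1 h)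
          · have := hQ _ (Finset.mem_coe.1 h); omega
      · obtain ⟨h1, h2, h3, h4⟩ := hB q (hFB hq)
        refine ⟨?_, ?_, h3⟩
        · rcases h1 with h1 | h1
          · exact Or.inl (Finset.mem_coe.2 h1)
          · exact Or.inr (Finset.mem_coe.2 h1)
        · rintro (h | h)
          · have := hP _ (Finset.mem_coe.1 h); omega
          · exact h2 (Finset.mem_coe.1 h)

end Pool.Agent.Helper820_Eden
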