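import Mathlib
import Pool.Agent.Helper820_Eden.Lattice

set_option autoImplicit false
open MeasureTheory ProbabilityTheory
open scoped ENNReal

namespace Pool.Agent.Helper820_Eden

/-- Rate of new infections in the lower layer. -/
def gA (m amax a b : ℕ) : ℕ := if a < amax then 2 * m * a + (b - a) - 2 * EE a else 0

/-- Rate of new infections in the upper layer. -/
def gB (m bmax a b : ℕ) : ℕ := if b < bmax then 2 * m * b + (a - b) - 2 * EE b else 0

section

variable {ι : Type} [Fintype ι] [DecidableEq ι]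

lemma ET_zero (A S : Set (ι → ℤ)) {x : ι → ℤ} (hA : x ∈ A) (hS : x ∈ S) :
    ET (latG ι) A S = 0 := by
  have h0 : ∀ ω : Sym2 (ι → ℤ) → ℝ, TT (latG ι) A S ω = 0 := by
    intro ω
    refine le_antisymm ?_ zero_le
    refine (tau_le (w := fun e => ENNReal.ofReal (ω e)) hA hS
      (SimpleGraph.Walk.nil : (latG ι).Walk x x)).trans ?_
    simp [cost]
  unfold ET
  simp [h0]

/-- The layer chain bound. -/
theorem plane_bound (i₀ : ι) (m Λ C amax bmax : ℕ) (hm : m = Fintype.card ι - 1) (hΛ : 0 < Λ)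
    (hab : bmax ≤ amax)
    (Gf : ℕ → ℕ) (H : ℕ → ℕ → ℕ)
    (hcell : ∀ a ≤ amax, ∀ b, 1 ≤ b → b ≤ bmax →
      Λ + b * Gf b + gB m bmax a b * H a (b + 1) + gA m amax a b * H (a + 1) b ≤
        (b + gA m amax a b + gB m bmax a b) * H a b + b * C)
    (hG : ∀ b, 1 ≤ b → b ≤ bmax → H b 1 ≤ Gf b) (N : ℤ) :
    ∀ (k : ℕ) (L : ℤ), L = N - k → ∀ (r a b : ℕ), a ≤ amax → 1 ≤ b → b ≤ bmax →
      (amax - a) + (bmax - b) < r → ∀ A : Set (ι → ℤ),
      (∃ P Q : Finset (ι → ℤ), (P : Set (ι → ℤ)) ⊆ A ∧ (Q : Set (ι → ℤ)) ⊆ A ∧ P.card = a ∧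
        Q.card = b ∧ (∀ x ∈ P, x i₀ = L - 1) ∧ (∀ x ∈ Q, x i₀ = L)) →
      (Λ : ℝ≥0∞) * ET (latG ι) A {z | z i₀ = N} ≤ ((C * k + H a b : ℕ) : ℝ≥0∞) := by
  have hΛ0 : (Λ : ℝ≥0∞) ≠ 0 := by exact_mod_cast hΛ.ne'
  have hΛt : (Λ : ℝ≥0∞) ≠ ⊤ := ENNReal.natCast_ne_top _
  have conv : ∀ (X : ℝ≥0∞) (n : ℕ), (Λ : ℝ≥0∞) * X ≤ n → X ≤ (n : ℝ≥0∞) / Λ := by
    intro X n h
    rw [ENNReal.le_div_iff_mul_le (Or.inl hΛ0) (Or.inl hΛt), mul_comm]
    exact h
  have conv2 : ∀ (n : ℕ), (Λ : ℝ≥0∞) * ((n : ℝ≥0∞) / Λ) = n := by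
    intro n
    exact ENNReal.mul_div_cancel hΛ0 hΛt
  intro k
  induction k with
  | zero =>
    rintro L hL r a b ha hb1 hb hr A ⟨P, Q, hPA, hQA, hPc, hQc, hP, hQ⟩
    obtain ⟨x, hx⟩ : Q.Nonempty := Finset.card_pos.1 (by omega)
    rw [ET_zero A _ (hQA (Finset.mem_coe.2 hx)) (by
      show x i₀ = N
      rw [hQ x hx, hL]; simp)]
    simp
  | succ k ihk =>
    intro L hL r
    induction r with
    | zero =>
      intro a b ha hb1 hb hr
      omega
    | succ r ihr =>
      rintro a b ha hb1 hb hr A ⟨P, Q, hPA, hQA, hPc, hQc, hP, hQ⟩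
      have hPQ : ((P : Set (ι → ℤ)) ∪ Q) ⊆ A := Set.union_subset hPA hQA
      have hls := layer_step i₀ L N (k + 1) hL P Q hP hQ (Finset.card_pos.1 (by omega))
        (gA m amax a b) (gB m bmax a b)
        (by rw [hPc, hQc, ← hm]; unfold gA; split_ifs <;> omega)
        (by rw [hPc, hQc, ← hm]; unfold gB; split_ifs <;> omega)
        (((C * k + Gf b : ℕ) : ℝ≥0∞) / Λ)
        (((C * (k + 1) + H (a + 1) b : ℕ) : ℝ≥0∞) / Λ)
        (((C * (k + 1) + H a (b + 1) : ℕ) : ℝ≥0∞) / Λ)
        (by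
          intro v hv
          refine conv _ _ ?_
          refine (ihk (L + 1) (by rw [hL]; push_cast; ring) _ b 1 (by omega) le_rfl (by omega)
            (Nat.lt_succ_self _) _ ⟨Q, {v}, ?_, ?_, hQc, by simp, ?_, ?_⟩).trans ?_
          · exact (Set.subset_union_right).trans (Set.subset_insert _ _)
          · simp
          · intro x hx; rw [hQ x hx]; ring
          · intro x hx; rw [Finset.mem_singleton.1 hx, hv]
          · have := hG b hb1 hb
            exact_mod_cast Nat.add_le_add_left this _)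
        (by
          intro hpos v hv hvP
          have ha' : a < amax := by
            by_contra hcon
            rw [gA, if_neg hcon] at hpos
            omega
          refine conv _ _ ?_
          refine ihr (a + 1) b (by omega) hb1 hb (by omega) _ ⟨insert v P, Q, ?_, ?_, ?_, hQc, ?_, hQ⟩
          · rw [Finset.coe_insert]
            exact Set.insert_subset_insert Set.subset_union_left
          · exact (Set.subset_union_right).trans (Set.subset_insert _ _)
          · rw [Finset.card_insert_of_notMem hvP, hPc]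
          · intro x hx
            rcases Finset.mem_insert.1 hx with rfl | hx
            · exact hv
            · exact hP x hx)
        (by
          intro hpos v hv hvQ
          have hb' : b < bmax := by
            by_contra hcon
            rw [gB, if_neg hcon] at hpos
            omega
          refine conv _ _ ?_
          refine ihr a (b + 1) ha (by omega) (by omega) (by omega) _
            ⟨P, insert v Q, ?_, ?_, hPc, ?_, hP, ?_⟩
          · exact (Set.subset_union_left).trans (Set.subset_insert _ _)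
          · rw [Finset.coe_insert]
            exact Set.insert_subset_insert Set.subset_union_right
          · rw [Finset.card_insert_of_notMem hvQ, hQc]
          · intro x hx
            rcases Finset.mem_insert.1 hx with rfl | hx
            · exact hv
            · exact hQ x hx)
      obtain ⟨D, hD⟩ : ∃ D, b + gA m amax a b + gB m bmax a b = D := ⟨_, rfl⟩
      have hD0 : 0 < D := by omega
      rw [hQc, hD] at hls
      have hc := hcell a ha b hb1 hb
      rw [hD] at hc
      have h1 : (D : ℝ≥0∞) * ((Λ : ℝ≥0∞) * ET (latG ι) A {z | z i₀ = N}) ≤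
          (D : ℝ≥0∞) * ((C * (k + 1) + H a b : ℕ) : ℝ≥0∞) := by
        calc (D : ℝ≥0∞) * ((Λ : ℝ≥0∞) * ET (latG ι) A {z | z i₀ = N})
            ≤ (D : ℝ≥0∞) * ((Λ : ℝ≥0∞) *
              ET (latG ι) ((P : Set (ι → ℤ)) ∪ Q) {z | z i₀ = N}) :=
              mul_le_mul_right (mul_le_mul_right (ET_anti _ hPQ) _) _
          _ = (Λ : ℝ≥0∞) * ((D : ℝ≥0∞) *
              ET (latG ι) ((P : Set (ι → ℤ)) ∪ Q) {z | z i₀ = N}) := by ring
          _ ≤ (Λ : ℝ≥0∞) * (1 + ((b : ℝ≥0∞) * (((C * k + Gf b : ℕ) : ℝ≥0∞) / Λ) +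
              (gA m amax a b : ℝ≥0∞) * (((C * (k + 1) + H (a + 1) b : ℕ) : ℝ≥0∞) / Λ) +
              (gB m bmax a b : ℝ≥0∞) * (((C * (k + 1) + H a (b + 1) : ℕ) : ℝ≥0∞) / Λ))) :=
              mul_le_mul_right hls _
          _ = (Λ : ℝ≥0∞) + ((b : ℝ≥0∞) * ((Λ : ℝ≥0∞) * (((C * k + Gf b : ℕ) : ℝ≥0∞) / Λ)) +
              (gA m amax a b : ℝ≥0∞) *
                ((Λ : ℝ≥0∞) * (((C * (k + 1) + H (a + 1) b : ℕ) : ℝ≥0∞) / Λ)) +
              (gB m bmax a b : ℝ≥0∞) *
                ((Λ : ℝ≥0∞) * (((C * (k + 1) + H a (b + 1) : ℕ) : ℝ≥0∞) / Λ))) := by ring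
          _ = ((Λ + (b * (C * k + Gf b) + gA m amax a b * (C * (k + 1) + H (a + 1) b) +
              gB m bmax a b * (C * (k + 1) + H a (b + 1))) : ℕ) : ℝ≥0∞) := by
              rw [conv2, conv2, conv2]
              push_cast
              ring
          _ ≤ ((D * (C * (k + 1) + H a b) : ℕ) : ℝ≥0∞) := by
              refine Nat.cast_le.2 ?_
              rw [← hD] at hc ⊢
              nlinarith
          _ = _ := by push_cast; ring
      exact (ENNReal.mul_le_mul_iff_right (by exact_mod_cast hD0.ne')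
        (ENNReal.natCast_ne_top _)).1 h1

end

end Pool.Agent.Helper820_Eden
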