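import Mathlib
import Pool.Agent.Helper820_Eden.DP

set_option autoImplicit false
open MeasureTheory ProbabilityTheory
open scoped ENNReal

namespace Pool.Agent.Helper820_Eden

/-- Rounded quotient. -/
def cellAux (R p h A B D : ℕ) : ℕ :=
  Nat.div (Nat.add (Nat.add (Nat.add R (Nat.mul B p)) (Nat.mul A h)) (Nat.pred D)) D

/-- Cell from the rates. -/
def cellMid (R p h A B b : ℕ) : ℕ := cellAux R p h A B (Nat.add b (Nat.add A B))

/-- One cell of the table. -/
def cell (m2 R f wb b e a wa h p : ℕ) : ℕ :=
  cellMid R p h (Nat.mul e (Nat.sub (Nat.add (Nat.mul m2 a) (Nat.sub b a)) wa))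
    (Nat.mul f (Nat.sub (Nat.add (Nat.mul m2 b) (Nat.sub a b)) wb)) b

lemma ceil_div_le (n D : ℕ) (hD : 0 < D) : n ≤ D * ((n + (D - 1)) / D) := by
  have h1 := Nat.div_add_mod (n + (D - 1)) D
  have h2 := Nat.mod_lt (n + (D - 1)) hD
  omega

lemma cell_spec (m2 R f wb b e a wa h p : ℕ) (hb : 0 < b) :
    R + (f * (m2 * b + (a - b) - wb)) * p + (e * (m2 * a + (b - a) - wa)) * h ≤
      (b + e * (m2 * a + (b - a) - wa) + f * (m2 * b + (a - b) - wb)) *
        cell m2 R f wb b e a wa h p := by
  have h1 : cell m2 R f wb b e a wa h p =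
      (R + (f * (m2 * b + (a - b) - wb)) * p + (e * (m2 * a + (b - a) - wa)) * h +
        (b + (e * (m2 * a + (b - a) - wa) + f * (m2 * b + (a - b) - wb)) - 1)) /
        (b + (e * (m2 * a + (b - a) - wa) + f * (m2 * b + (a - b) - wb))) := rfl
  rw [h1, add_assoc b]
  exact ceil_div_le _ _ (by omega)

/-- Evaluate the head before continuing. -/
def rowAux (x : ℕ) (k : ℕ → List ℕ) : List ℕ := cond (Nat.ble x 1) (x :: k x) (x :: k x)

/-- One row of the table, from `a = amax` down to `0`. -/
def rowGo (m2 R f wb b : ℕ) : List ℕ → List ℕ → ℕ → ℕ → ℕ → List ℕ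
  | p :: ps, w :: ws, e, a, h =>
    rowAux (cell m2 R f wb b e a w h p) (rowGo m2 R f wb b ps ws 1 (Nat.pred a))
  | _, _, _, _, _ => []

lemma rowGo_cons (m2 R f wb b : ℕ) (p : ℕ) (ps : List ℕ) (w : ℕ) (ws : List ℕ) (e a h : ℕ) :
    rowGo m2 R f wb b (p :: ps) (w :: ws) e a h = cell m2 R f wb b e a w h p ::
        rowGo m2 R f wb b ps ws 1 (a - 1) (cell m2 R f wb b e a w h p) := by
  rw [rowGo, rowAux, Bool.cond_self, Nat.pred_eq_sub_one]

lemma rowGo_length (m2 R f wb b : ℕ) : ∀ (ps ws : List ℕ) (e a h : ℕ),
    ps.length = ws.length → (rowGo m2 R f wb b ps ws e a h).length = ws.length := by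
  intro ps
  induction ps with
  | nil =>
    intro ws e a h hl
    cases ws <;> simp_all [rowGo]
  | cons p ps ih =>
    intro ws e a h hl
    cases ws with
    | nil => simp at hl
    | cons w ws =>
      rw [rowGo_cons, List.length_cons, List.length_cons, ih]
      simpa using hl

lemma rowGo_spec (m2 R f wb b : ℕ) (hb : 0 < b) : ∀ (ps ws : List ℕ) (e a h : ℕ),
    ps.length = ws.length → ∀ i < ws.length,
    R + (f * (m2 * b + ((a - i) - b) - wb)) * ps.getD i 0 +
      ((if i = 0 then e else 1) * (m2 * (a - i) + (b - (a - i)) - ws.getD i 0)) *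
        (if i = 0 then h else (rowGo m2 R f wb b ps ws e a h).getD (i - 1) 0) ≤
      (b + (if i = 0 then e else 1) * (m2 * (a - i) + (b - (a - i)) - ws.getD i 0) +
        f * (m2 * b + ((a - i) - b) - wb)) * (rowGo m2 R f wb b ps ws e a h).getD i 0 := by
  intro ps
  induction ps with
  | nil =>
    intro ws e a h hl i hi
    simp at hl
    omega
  | cons p ps ih =>
    intro ws e a h hl i hi
    cases ws with
    | nil => simp at hi
    | cons w ws =>
      rw [rowGo_cons]
      cases i with
      | zero =>
        simp only [Nat.sub_zero, List.getD_cons_zero, if_true]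
        exact cell_spec _ _ _ _ _ _ _ _ _ _ hb
      | succ i =>
        have := ih ws 1 (a - 1) (cell m2 R f wb b e a w h p) (by simpa using hl) i
          (by simpa using hi)
        simp only [List.getD_cons_succ, Nat.succ_ne_zero, if_false, Nat.add_sub_cancel]
        have h1 : a - 1 - i = a - (i + 1) := by omega
        rw [h1] at this
        have h2 : (if i = 0 then 1 else 1) = 1 := by split_ifs <;> rfl
        rw [h2] at this
        have h3 : (cell m2 R f wb b e a w h p ::
            rowGo m2 R f wb b ps ws 1 (a - 1) (cell m2 R f wb b e a w h p)).getD i 0 =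
            if i = 0 then cell m2 R f wb b e a w h p else
              (rowGo m2 R f wb b ps ws 1 (a - 1) (cell m2 R f wb b e a w h p)).getD (i - 1) 0 := by
          cases i with
          | zero => simp
          | succ i => simp
        rw [h3]
        exact this

/-- The rows of the table, from `b` down. -/
def rowsGo (m2 Λ C amax : ℕ) (ws : List ℕ) : List ℕ → List ℕ → ℕ → ℕ → List ℕ → List (List ℕ)
  | g :: gs, wb :: wbs, f, b, prev =>
    rowGo m2 (Nat.sub (Nat.add Λ (Nat.mul b g)) (Nat.mul b C)) f wb b prev ws 0 amax 0 ::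
      rowsGo m2 Λ C amax ws gs wbs 1 (Nat.pred b)
        (rowGo m2 (Nat.sub (Nat.add Λ (Nat.mul b g)) (Nat.mul b C)) f wb b prev ws 0 amax 0)
  | _, _, _, _, _ => []

lemma rowsGo_cons (m2 Λ C amax : ℕ) (ws : List ℕ) (g : ℕ) (gs : List ℕ) (wb : ℕ) (wbs : List ℕ)
    (f b : ℕ) (prev : List ℕ) : rowsGo m2 Λ C amax ws (g :: gs) (wb :: wbs) f b prev =
    rowGo m2 (Λ + b * g - b * C) f wb b prev ws 0 amax 0 ::
      rowsGo m2 Λ C amax ws gs wbs 1 (b - 1)
        (rowGo m2 (Λ + b * g - b * C) f wb b prev ws 0 amax 0) := rfl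

lemma rowsGo_spec (m2 Λ C amax : ℕ) (ws : List ℕ) : ∀ (gs wbs : List ℕ) (f b : ℕ)
    (prev : List ℕ), prev.length = ws.length → gs.length ≤ wbs.length → gs.length ≤ b →
    ∀ j < gs.length, ∀ i < ws.length,
    Λ + (b - j) * gs.getD j 0 +
      ((if j = 0 then f else 1) * (m2 * (b - j) + ((amax - i) - (b - j)) - wbs.getD j 0)) *
        (if j = 0 then prev.getD i 0 else
          ((rowsGo m2 Λ C amax ws gs wbs f b prev).getD (j - 1) []).getD i 0) +
      ((if i = 0 then 0 else 1) *
        (m2 * (amax - i) + ((b - j) - (amax - i)) - ws.getD i 0)) *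
        (((rowsGo m2 Λ C amax ws gs wbs f b prev).getD j []).getD (i - 1) 0) ≤
      ((b - j) + (if i = 0 then 0 else 1) *
        (m2 * (amax - i) + ((b - j) - (amax - i)) - ws.getD i 0) +
        (if j = 0 then f else 1) * (m2 * (b - j) + ((amax - i) - (b - j)) - wbs.getD j 0)) *
        (((rowsGo m2 Λ C amax ws gs wbs f b prev).getD j []).getD i 0) + (b - j) * C := by
  intro gs
  induction gs with
  | nil => intro wbs f b prev _ _ _ j hj; simp at hj
  | cons g gs ih =>
    intro wbs f b prev hp hl hb j hj i hi
    cases wbs with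
    | nil => simp at hl
    | cons wb wbs =>
      simp only [List.length_cons] at hl hb hj
      rw [rowsGo_cons]
      cases j with
      | zero =>
        simp only [Nat.sub_zero, List.getD_cons_zero, if_true]
        have := rowGo_spec m2 (Λ + b * g - b * C) f wb b (by omega) prev ws 0 amax 0 hp i hi
        by_cases hi0 : i = 0
        · simp only [hi0, if_true, Nat.sub_zero, zero_mul, add_zero] at this ⊢
          omega
        · simp only [hi0, if_false] at this ⊢
          omega
      | succ j =>
        have hlen := rowGo_length m2 (Λ + b * g - b * C) f wb b prev ws 0 amax 0 hp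
        have := ih wbs 1 (b - 1) _ hlen (by omega) (by omega) j (by omega) i hi
        simp only [List.getD_cons_succ, Nat.succ_ne_zero, if_false, Nat.add_sub_cancel]
        have h1 : b - 1 - j = b - (j + 1) := by omega
        rw [h1] at this
        have h2 : (if j = 0 then 1 else 1) = 1 := by split_ifs <;> rfl
        rw [h2] at this
        have h3 : ∀ (r : List ℕ) (t : List (List ℕ)), ((r :: t).getD j []).getD i 0 =
            if j = 0 then r.getD i 0 else (t.getD (j - 1) []).getD i 0 := by
          intro r t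
          cases j with
          | zero => simp
          | succ j => simp
        rw [h3]
        exact this

/-- Entrywise comparison. -/
def chk : List ℕ → List ℕ → Bool
  | x :: xs, g :: gs => cond (Nat.ble x g) (chk xs gs) false
  | _, [] => true
  | [], _ :: _ => true

lemma chk_spec : ∀ (xs gs : List ℕ), chk xs gs = true → ∀ i < gs.length,
    xs.getD i 0 ≤ gs.getD i 0 := by
  intro xs
  induction xs with
  | nil => intro gs _ i hi; simp
  | cons x xs ih =>
    intro gs h i hi
    cases gs with
    | nil => simp at hi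
    | cons g gs =>
      rw [chk] at h
      cases hx : Nat.ble x g with
      | false => rw [hx] at h; simp at h
      | true =>
        rw [hx] at h
        cases i with
        | zero => simpa using Nat.le_of_ble_eq_true hx
        | succ i =>
          simpa using ih gs (by simpa using h) i (by simpa using hi)

/-- `2 * EE a` for `a` from `n` down to `0`. -/
def wlist : ℕ → List ℕ
  | 0 => [0]
  | n + 1 => 2 * EE (n + 1) :: wlist n

lemma wlist_length (n : ℕ) : (wlist n).length = n + 1 := by
  induction n with
  | zero => rfl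
  | succ n ih => rw [wlist, List.length_cons, ih]

lemma wlist_getD : ∀ (n i : ℕ), i ≤ n → (wlist n).getD i 0 = 2 * EE (n - i) := by
  intro n
  induction n with
  | zero =>
    intro i hi
    have : i = 0 := by omega
    subst this
    simp [wlist, EE_zero]
  | succ n ih =>
    intro i hi
    rw [wlist]
    cases i with
    | zero => simp
    | succ i =>
      rw [List.getD_cons_succ, ih i (by omega)]
      congr 2
      omega

/-- The whole check: `gs` lists the values of `G` from `b = bmax` down to `1`. -/
def checkTable (m Λ C amax bmax : ℕ) (gs : List ℕ) : Bool :=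
  (gs.length == bmax) && (Nat.ble bmax amax) && (Nat.ble 1 bmax) &&
  chk (((rowsGo (2 * m) Λ C amax (wlist amax) gs (wlist bmax) 0 bmax
    (List.replicate (amax + 1) 0)).getD (bmax - 1) []).drop (amax - bmax)) gs

section

variable {ι : Type} [Fintype ι] [DecidableEq ι]

/-- A successful check bounds the expected passage time to a hyperplane. -/
theorem table_bound (i₀ : ι) (m Λ C amax bmax : ℕ) (gs : List ℕ) (hm : m = Fintype.card ι - 1)
    (hΛ : 0 < Λ) (h : checkTable m Λ C amax bmax gs = true) :
    ∃ K : ℕ, ∀ n : ℕ, (Λ : ℝ≥0∞) * ET (latG ι) {0} {z | z i₀ = n} ≤ ((C * n + K : ℕ) : ℝ≥0∞) := by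
  unfold checkTable at h
  rw [Bool.and_eq_true, Bool.and_eq_true, Bool.and_eq_true] at h
  obtain ⟨⟨⟨hlen, hab⟩, hb1⟩, hchk⟩ := h
  replace hlen : gs.length = bmax := by simpa using hlen
  replace hab : bmax ≤ amax := Nat.le_of_ble_eq_true hab
  replace hb1 : 1 ≤ bmax := Nat.le_of_ble_eq_true hb1
  obtain ⟨Rs, hRs⟩ : ∃ Rs, rowsGo (2 * m) Λ C amax (wlist amax) gs (wlist bmax) 0 bmax
    (List.replicate (amax + 1) 0) = Rs := ⟨_, rfl⟩
  have hspec := rowsGo_spec (2 * m) Λ C amax (wlist amax) gs (wlist bmax) 0 bmax
    (List.replicate (amax + 1) 0) (by rw [wlist_length, List.length_replicate])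
    (by rw [wlist_length]; omega) (by omega)
  rw [hRs] at hchk hspec
  set H : ℕ → ℕ → ℕ := fun a b => (Rs.getD (bmax - b) []).getD (amax - a) 0 with hH
  set Gf : ℕ → ℕ := fun b => gs.getD (bmax - b) 0 with hGf
  refine ⟨H 0 1, fun n => ?_⟩
  have key := plane_bound i₀ m Λ C amax bmax hm hΛ hab Gf H ?_ ?_ n n 0 (by simp)
    (amax + bmax + 1) 0 1 (by omega) le_rfl hb1 (by omega) {0} ⟨∅, {0}, ?_, ?_, ?_, ?_, ?_, ?_⟩
  · exact key
  · intro a ha b hb1 hb
    have := hspec (bmax - b) (by omega) (amax - a) (by rw [wlist_length]; omega)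
    have e1 : bmax - (bmax - b) = b := by omega
    have e2 : amax - (amax - a) = a := by omega
    rw [e1, e2, wlist_getD _ _ (by omega), wlist_getD _ _ (by omega), e1, e2] at this
    have e3 : amax - a = 0 ↔ ¬ a < amax := by omega
    have e4 : bmax - b = 0 ↔ ¬ b < bmax := by omega
    have e5 : amax - a - 1 = amax - (a + 1) := by omega
    have e6 : bmax - b - 1 = bmax - (b + 1) := by omega
    rw [e5, e6] at this
    have e7 : (if bmax - b = 0 then 0 else 1) * (2 * m * b + (a - b) - 2 * EE b)
        = gB m bmax a b := by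
      unfold gB
      by_cases hlt : b < bmax
      · rw [if_neg (by omega), if_pos hlt, one_mul]
      · rw [if_pos (by omega), if_neg hlt, zero_mul]
    have e8 : (if amax - a = 0 then 0 else 1) * (2 * m * a + (b - a) - 2 * EE a)
        = gA m amax a b := by
      unfold gA
      by_cases hlt : a < amax
      · rw [if_neg (by omega), if_pos hlt, one_mul]
      · rw [if_pos (by omega), if_neg hlt, zero_mul]
    rw [e7, e8] at this
    by_cases hlt : b < bmax
    · rw [if_neg (by omega)] at this
      exact this
    · have h0 : gB m bmax a b = 0 := by unfold gB; rw [if_neg hlt]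
      rw [h0] at this ⊢
      rw [zero_mul] at this ⊢
      exact this
  · intro b hb1 hb
    have := chk_spec _ _ hchk (bmax - b) (by omega)
    rw [List.getD_eq_getElem?_getD, List.getElem?_drop, ← List.getD_eq_getElem?_getD] at this
    have e1 : amax - bmax + (bmax - b) = amax - b := by omega
    rw [e1] at this
    exact this
  · simp
  · simp
  · simp
  · simp
  · simp
  · simp

end

end Pool.Agent.Helper820_Eden
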