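import Mathlib
import Pool.Agent.Helper820_Eden.Table

set_option autoImplicit false
set_option maxRecDepth 100000

namespace Pool.Agent.Helper820_Eden

/-- Values of the potential in dimension 16. -/
def gs16 : List ℕ :=
  [
    1262538, 1264211, 1265906, 1267624, 1269364, 1271129, 1272917, 1274733, 1276572, 1278438,
    1280329, 1282250, 1284198, 1286177, 1288186, 1290228, 1292299, 1294400, 1296532, 1298699,
    1300898, 1303134, 1305406, 1307718, 1310066, 1312454, 1314882, 1317355, 1319871, 1322434,
    1325045, 1327710, 1330412, 1333156, 1335943, 1338778, 1341658, 1344588, 1347570, 1350611,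
    1353701, 1356849, 1360054, 1363325, 1366659, 1370061, 1373536, 1377092, 1380712, 1384407,
    1388178, 1392034, 1395973, 1400005, 1404133, 1408370, 1412704, 1417147, 1421705, 1426392,
    1431205, 1436162, 1441269, 1446549, 1451956, 1457511, 1463222, 1469114, 1475178, 1481444,
    1487925, 1494655, 1501606, 1508817, 1516308, 1524128, 1532274, 1540806, 1549761, 1559224,
    1569105, 1579498, 1590455, 1602110, 1614473, 1627729, 1642015, 1657634, 1674532, 1693143,
    1713857, 1737569, 1764752, 1797228, 1836608]

theorem cert16 : checkTable 15 10000000 842281 255 95 gs16 = true := by decide +kernel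

end Pool.Agent.Helper820_Eden
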