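import Mathlib
import Pool.Agent.Helper820_Eden.Table

set_option autoImplicit false
set_option maxRecDepth 100000

namespace Pool.Agent.Helper820_Eden

/-- Values of the potential in dimension 17. -/
def gs17 : List ℕ :=
  [
    1222873, 1224680, 1226522, 1228402, 1230317, 1232269, 1234259, 1236292, 1238364, 1240481,
    1242643, 1244854, 1247102, 1249391, 1251722, 1254098, 1256518, 1258986, 1261504, 1264077,
    1266698, 1269373, 1272103, 1274895, 1277746, 1280662, 1283646, 1286704, 1289825, 1293016,
    1296279, 1299622, 1303044, 1306551, 1310149, 1313848, 1317637, 1321529, 1325528, 1329646,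
    1333881, 1338248, 1342754, 1347417, 1352202, 1357126, 1362196, 1367432, 1372832, 1378419,
    1384204, 1390218, 1396440, 1402903, 1409624, 1416647, 1423971, 1431650, 1439717, 1448244,
    1457163, 1466552, 1476463, 1487010, 1498212, 1510228, 1523184, 1537348, 1552688, 1569587,
    1588402, 1609924, 1634606, 1664066, 1699771]

theorem cert17 : checkTable 16 10000000 816056 185 75 gs17 = true := by decide +kernel

end Pool.Agent.Helper820_Eden
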