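import Mathlib
import Pool.Agent.Helper820_Eden.Table

set_option autoImplicit false
set_option maxRecDepth 100000

namespace Pool.Agent.Helper820_Eden

/-- Values of the potential in dimension 18. -/
def gs18 : List ℕ :=
  [
    1187022, 1188640, 1190297, 1191992, 1193729, 1195508, 1197332, 1199192, 1201092, 1203033,
    1205016, 1207042, 1209114, 1211233, 1213402, 1215619, 1217887, 1220208, 1222586, 1225019,
    1227515, 1230073, 1232700, 1235388, 1238141, 1240962, 1243859, 1246829, 1249879, 1253014,
    1256242, 1259555, 1262964, 1266472, 1270090, 1273817, 1277667, 1281644, 1285765, 1290001,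
    1294367, 1298870, 1303529, 1308339, 1313324, 1318492, 1323872, 1329445, 1335242, 1341279,
    1347593, 1354186, 1361105, 1368381, 1376077, 1384138, 1392635, 1401613, 1411176, 1421344,
    1432260, 1444037, 1456915, 1470876, 1486267, 1503412, 1523017, 1545514, 1572352, 1604875]

theorem cert18 : checkTable 17 10000000 792235 150 70 gs18 = true := by decide +kernel

end Pool.Agent.Helper820_Eden
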