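import Mathlib
import Pool.Agent.Helper820_Eden.Table

set_option autoImplicit false
set_option maxRecDepth 100000

namespace Pool.Agent.Helper820_Eden

/-- Values of the potential in dimension 19. -/
def gs19 : List ℕ :=
  [
    1154155, 1155719, 1157317, 1158953, 1160627, 1162343, 1164098, 1165897, 1167740, 1169631,
    1171566, 1173550, 1175583, 1177670, 1179810, 1182007, 1184262, 1186582, 1188959, 1191398,
    1193900, 1196473, 1199115, 1201831, 1204626, 1207508, 1210469, 1213520, 1216662, 1219907,
    1223253, 1226712, 1230289, 1233998, 1237816, 1241755, 1245823, 1250034, 1254388, 1258903,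
    1263589, 1268470, 1273531, 1278801, 1284292, 1290040, 1296047, 1302353, 1308988, 1316009,
    1323370, 1331134, 1339344, 1348093, 1357401, 1367398, 1378187, 1389981, 1402778, 1416888,
    1432609, 1450575, 1471195, 1495775, 1525548]

theorem cert19 : checkTable 18 10000000 770388 135 65 gs19 = true := by decide +kernel

end Pool.Agent.Helper820_Eden
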