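import Mathlib
import Pool.Agent.Helper820_Eden.Table

set_option autoImplicit false
set_option maxRecDepth 100000

namespace Pool.Agent.Helper820_Eden

/-- Values of the potential in dimension 20. -/
def gs20 : List ℕ :=
  [
    1125087, 1126076, 1127100, 1128159, 1129255, 1130388, 1131560, 1132768, 1134012, 1135293,
    1136614, 1137975, 1139377, 1140822, 1142312, 1143845, 1145425, 1147053, 1148731, 1150459,
    1152242, 1154080, 1155978, 1157931, 1159942, 1162015, 1164153, 1166357, 1168631, 1170979,
    1173407, 1175911, 1178498, 1181171, 1183939, 1186802, 1189769, 1192846, 1196044, 1199345,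
    1202760, 1206295, 1209965, 1213768, 1217721, 1221833, 1226124, 1230586, 1235240, 1240100,
    1245197, 1250534, 1256148, 1262065, 1268335, 1274922, 1281884, 1289259, 1297131, 1305522,
    1314547, 1324303, 1334980, 1346587, 1359405, 1373709, 1390071, 1408882, 1431327, 1458543]

theorem cert20 : checkTable 19 10000000 750657 110 70 gs20 = true := by decide +kernel

end Pool.Agent.Helper820_Eden
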