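import Mathlib
import Pool.Agent.Helper820_Eden.Table

set_option autoImplicit false
set_option maxRecDepth 100000

namespace Pool.Agent.Helper820_Eden

/-- Values of the potential in dimension 21. -/
def gs21 : List ℕ :=
  [
    1097324, 1098095, 1098900, 1099738, 1100610, 1101518, 1102463, 1103442, 1104456, 1105506,
    1106594, 1107719, 1108884, 1110090, 1111339, 1112629, 1113963, 1115342, 1116769, 1118244,
    1119769, 1121347, 1122981, 1124667, 1126409, 1128208, 1130069, 1131991, 1133980, 1136038,
    1138170, 1140374, 1142655, 1145018, 1147468, 1150007, 1152643, 1155380, 1158230, 1161177,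
    1164231, 1167398, 1170689, 1174106, 1177663, 1181367, 1185238, 1189268, 1193478, 1197879,
    1202500, 1207343, 1212443, 1217823, 1223529, 1229530, 1235880, 1242614, 1249808, 1257483,
    1265745, 1274682, 1284467, 1295115, 1306882, 1320022, 1335055, 1352352, 1372989, 1398022]

theorem cert21 : checkTable 20 10000000 732106 100 70 gs21 = true := by decide +kernel

end Pool.Agent.Helper820_Eden
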