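import Mathlib
import Pool.Agent.Helper820_Eden.Table

set_option autoImplicit false
set_option maxRecDepth 100000

namespace Pool.Agent.Helper820_Eden

/-- Values of the potential in dimension 22. -/
def gs22 : List ℕ :=
  [
    1068258, 1069443, 1070665, 1071924, 1073223, 1074560, 1075937, 1077356, 1078820, 1080327,
    1081882, 1083486, 1085142, 1086846, 1088601, 1090410, 1092277, 1094201, 1096187, 1098237,
    1100357, 1102543, 1104802, 1107137, 1109554, 1112054, 1114644, 1117329, 1120119, 1123001,
    1125982, 1129069, 1132274, 1135595, 1139047, 1142639, 1146386, 1150282, 1154346, 1158590,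
    1163040, 1167698, 1172597, 1177757, 1183221, 1188963, 1195031, 1201459, 1208315, 1215623,
    1223478, 1231962, 1241234, 1251312, 1262430, 1274823, 1288968, 1305213, 1324543, 1347934]

theorem cert22 : checkTable 21 10000000 713779 110 60 gs22 = true := by decide +kernel

end Pool.Agent.Helper820_Eden
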