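import Mathlib
import Pool.Agent.Helper820_Eden.Table

set_option autoImplicit false
set_option maxRecDepth 100000

namespace Pool.Agent.Helper820_Eden

/-- Values of the potential in dimension 23. -/
def gs23 : List ℕ :=
  [
    1045985, 1046970, 1047989, 1049044, 1050137, 1051266, 1052434, 1053641, 1054891, 1056182,
    1057519, 1058901, 1060332, 1061809, 1063335, 1064912, 1066543, 1068229, 1069972, 1071776,
    1073645, 1075578, 1077578, 1079649, 1081798, 1084024, 1086334, 1088733, 1091230, 1093813,
    1096490, 1099267, 1102153, 1105149, 1108268, 1111516, 1114910, 1118444, 1122134, 1125994,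
    1130043, 1134289, 1138757, 1143468, 1148461, 1153715, 1159273, 1165166, 1171458, 1178170,
    1185391, 1193197, 1201731, 1211018, 1221270, 1232707, 1245764, 1260772, 1278634, 1300257]

theorem cert23 : checkTable 22 10000000 698300 100 60 gs23 = true := by decide +kernel

end Pool.Agent.Helper820_Eden
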