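import Mathlib
import Pool.Agent.Helper820_Eden.Table

set_option autoImplicit false
set_option maxRecDepth 100000

namespace Pool.Agent.Helper820_Eden

/-- Values of the potential in dimension 24. -/
def gs24 : List ℕ :=
  [
    1024410, 1025569, 1026764, 1028000, 1029274, 1030591, 1031950, 1033355, 1034804, 1036298,
    1037840, 1039433, 1041077, 1042776, 1044531, 1046348, 1048223, 1050163, 1052169, 1054248,
    1056400, 1058631, 1060946, 1063351, 1065838, 1068414, 1071084, 1073856, 1076732, 1079724,
    1082837, 1086087, 1089469, 1092998, 1096686, 1100553, 1104603, 1108863, 1113352, 1118103,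
    1123100, 1128383, 1133981, 1139951, 1146317, 1153159, 1160548, 1168616, 1177388, 1187062,
    1197841, 1210125, 1224226, 1240976, 1261217]

theorem cert24 : checkTable 23 10000000 683574 105 55 gs24 = true := by decide +kernel

end Pool.Agent.Helper820_Eden
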