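import Mathlib
import Pool.Agent.Helper820_Eden.Table

set_option autoImplicit false
set_option maxRecDepth 100000

namespace Pool.Agent.Helper820_Eden

/-- Values of the potential in dimension 25. -/
def gs25 : List ℕ :=
  [
    1002001, 1002732, 1003495, 1004290, 1005119, 1005981, 1006878, 1007811, 1008782, 1009790,
    1010838, 1011928, 1013061, 1014235, 1015454, 1016718, 1018030, 1019391, 1020803, 1022270,
    1023794, 1025374, 1027015, 1028719, 1030490, 1032331, 1034245, 1036238, 1038316, 1040471,
    1042710, 1045037, 1047461, 1049983, 1052613, 1055357, 1058228, 1061224, 1064358, 1067640,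
    1071089, 1074710, 1078526, 1082554, 1086826, 1091330, 1096099, 1101164, 1106577, 1112358,
    1118583, 1125318, 1132684, 1140709, 1149575, 1159474, 1170773, 1183772, 1199239, 1217965]

theorem cert25 : checkTable 24 10000000 669037 90 60 gs25 = true := by decide +kernel

end Pool.Agent.Helper820_Eden
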