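import Mathlib
import Pool.Agent.Helper820_Eden.Table

set_option autoImplicit false
set_option maxRecDepth 100000

namespace Pool.Agent.Helper820_Eden

/-- Values of the potential in dimension 26. -/
def gs26 : List ℕ :=
  [
    983727, 984641, 985589, 986572, 987590, 988646, 989741, 990877, 992052, 993268,
    994527, 995831, 997181, 998580, 1000030, 1001534, 1003091, 1004705, 1006378, 1008116,
    1009918, 1011791, 1013737, 1015763, 1017863, 1020041, 1022303, 1024657, 1027103, 1029651,
    1032307, 1035083, 1037977, 1041001, 1044166, 1047488, 1050972, 1054640, 1058509, 1062608,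
    1066924, 1071493, 1076340, 1081514, 1087036, 1092976, 1099395, 1106406, 1114038, 1122459,
    1131848, 1142546, 1154835, 1169428, 1187062]

theorem cert26 : checkTable 25 10000000 656299 95 55 gs26 = true := by decide +kernel

end Pool.Agent.Helper820_Eden
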