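import Mathlib
import Pool.Agent.Helper820_Eden.Table

set_option autoImplicit false
set_option maxRecDepth 100000

namespace Pool.Agent.Helper820_Eden

/-- Values of the potential in dimension 27. -/
def gs27 : List ℕ :=
  [
    962264, 963129, 964026, 964956, 965920, 966919, 967955, 969029, 970141, 971291,
    972483, 973717, 974995, 976319, 977691, 979114, 980588, 982116, 983700, 985344,
    987050, 988822, 990664, 992581, 994568, 996630, 998770, 1000998, 1003313, 1005724,
    1008238, 1010865, 1013604, 1016466, 1019461, 1022604, 1025901, 1029371, 1033031, 1036907,
    1040989, 1045310, 1049893, 1054785, 1060006, 1065621, 1071687, 1078309, 1085517, 1093468,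
    1102330, 1112421, 1124009, 1137757, 1154359]

theorem cert27 : checkTable 26 10000000 642878 95 55 gs27 = true := by decide +kernel

end Pool.Agent.Helper820_Eden
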