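import Mathlib
import Pool.Agent.Helper820_Eden.Table

set_option autoImplicit false
set_option maxRecDepth 100000

namespace Pool.Agent.Helper820_Eden

/-- Values of the potential in dimension 28. -/
def gs28 : List ℕ :=
  [
    945508, 945975, 946470, 946993, 947545, 948125, 948736, 949378, 950052, 950759,
    951500, 952276, 953089, 953938, 954824, 955750, 956717, 957725, 958777, 959875,
    961021, 962216, 963461, 964760, 966116, 967530, 969006, 970547, 972159, 973837,
    975587, 977411, 979316, 981304, 983382, 985557, 987837, 990223, 992724, 995349,
    998113, 1001020, 1004090, 1007335, 1010782, 1014422, 1018285, 1022394, 1026790, 1031494,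
    1036564, 1042056, 1048065, 1054622, 1061874, 1069978, 1079229, 1089882, 1102556, 1117903]

theorem cert28 : checkTable 27 10000000 631372 80 60 gs28 = true := by decide +kernel

end Pool.Agent.Helper820_Eden
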