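import Mathlib
import Pool.Agent.Helper820_Eden.Table

set_option autoImplicit false
set_option maxRecDepth 100000

namespace Pool.Agent.Helper820_Eden

/-- Values of the potential in dimension 29. -/
def gs29 : List ℕ :=
  [
    926113, 926556, 927025, 927520, 928043, 928594, 929173, 929781, 930420, 931090,
    931793, 932529, 933299, 934104, 934945, 935822, 936739, 937695, 938693, 939734,
    940822, 941954, 943136, 944368, 945654, 946995, 948395, 949857, 951386, 952977,
    954636, 956366, 958173, 960059, 962031, 964093, 966256, 968519, 970891, 973381,
    976003, 978760, 981671, 984748, 988015, 991467, 995129, 999024, 1003190, 1007649,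
    1012453, 1017656, 1023347, 1029557, 1036423, 1044093, 1052844, 1062919, 1074896, 1089391]

theorem cert29 : checkTable 28 10000000 619301 80 60 gs29 = true := by decide +kernel

end Pool.Agent.Helper820_Eden
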