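import Mathlib
import Pool.Agent.Helper820_Eden.Table

set_option autoImplicit false
set_option maxRecDepth 100000

namespace Pool.Agent.Helper820_Eden

/-- Values of the potential in dimension 30. -/
def gs30 : List ℕ :=
  [
    913285, 913905, 914552, 915228, 915934, 916670, 917438, 918238, 919071, 919938,
    920840, 921779, 922755, 923771, 924828, 925929, 927073, 928263, 929501, 930790,
    932132, 933530, 934987, 936507, 938087, 939731, 941443, 943228, 945089, 947031,
    949059, 951183, 953402, 955726, 958162, 960722, 963413, 966249, 969244, 972419,
    975770, 979321, 983094, 987126, 991434, 996072, 1001087, 1006565, 1012535, 1019126,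
    1026478, 1034850, 1044472, 1055885, 1069669]

theorem cert30 : checkTable 29 10000000 609707 85 55 gs30 = true := by decide +kernel

end Pool.Agent.Helper820_Eden
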