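import Mathlib
import Pool.Agent.Helper820_Eden.Table

set_option autoImplicit false
set_option maxRecDepth 100000

namespace Pool.Agent.Helper820_Eden

/-- Values of the potential in dimension 31. -/
def gs31 : List ℕ :=
  [
    896460, 897049, 897666, 898309, 898980, 899681, 900411, 901173, 901966, 902791,
    903650, 904543, 905473, 906440, 907446, 908493, 909582, 910715, 911893, 913121,
    914398, 915729, 917115, 918562, 920066, 921631, 923261, 924960, 926731, 928579,
    930510, 932532, 934644, 936856, 939174, 941611, 944171, 946870, 949720, 952740,
    955928, 959306, 962894, 966728, 970826, 975235, 980003, 985208, 990880, 997142,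
    1004124, 1012070, 1021200, 1032023, 1045086]

theorem cert31 : checkTable 30 10000000 599045 85 55 gs31 = true := by decide +kernel

end Pool.Agent.Helper820_Eden
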