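import Mathlib
import Pool.Agent.Helper820_Eden.Table

set_option autoImplicit false
set_option maxRecDepth 100000

namespace Pool.Agent.Helper820_Eden

/-- Values of the potential in dimension 32. -/
def gs32 : List ℕ :=
  [
    884772, 884997, 885244, 885515, 885810, 886130, 886474, 886845, 887242, 887666,
    888119, 888600, 889112, 889653, 890226, 890831, 891470, 892143, 892853, 893599,
    894385, 895211, 896078, 896988, 897945, 898949, 900003, 901110, 902274, 903491,
    904767, 906103, 907505, 908975, 910517, 912138, 913842, 915632, 917515, 919498,
    921592, 923801, 926139, 928618, 931255, 934048, 937019, 940188, 943584, 947227,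
    951160, 955427, 960100, 965212, 970873, 977209, 984445, 992792, 1002726, 1014764]

theorem cert32 : checkTable 31 10000000 590338 70 60 gs32 = true := by decide +kernel

end Pool.Agent.Helper820_Eden
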