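import Mathlib
import Pool.Agent.Helper820_Eden.Table

set_option autoImplicit false
set_option maxRecDepth 100000

namespace Pool.Agent.Helper820_Eden

/-- Values of the potential in dimension 33. -/
def gs33 : List ℕ :=
  [
    869135, 869349, 869585, 869843, 870124, 870428, 870757, 871110, 871488, 871892,
    872323, 872782, 873269, 873785, 874331, 874908, 875516, 876158, 876834, 877545,
    878294, 879081, 879908, 880776, 881687, 882644, 883649, 884704, 885813, 886973,
    888189, 889463, 890799, 892200, 893671, 895215, 896840, 898546, 900342, 902232,
    904227, 906333, 908561, 910923, 913435, 916097, 918928, 921947, 925183, 928653,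
    932399, 936463, 940912, 945778, 951167, 957196, 964078, 972016, 981457, 992893]

theorem cert33 : checkTable 32 10000000 580539 70 60 gs33 = true := by decide +kernel

end Pool.Agent.Helper820_Eden
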