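import Mathlib
import Pool.Agent.Helper820_Eden.Table

set_option autoImplicit false
set_option maxRecDepth 100000

namespace Pool.Agent.Helper820_Eden

/-- Values of the potential in dimension 34. -/
def gs34 : List ℕ :=
  [
    854306, 854510, 854734, 854980, 855248, 855539, 855852, 856188, 856549, 856935,
    857346, 857783, 858248, 858741, 859262, 859812, 860393, 861005, 861650, 862329,
    863044, 863794, 864583, 865411, 866282, 867195, 868154, 869161, 870219, 871326,
    872487, 873702, 874978, 876315, 877718, 879193, 880743, 882372, 884085, 885889,
    887794, 889803, 891929, 894183, 896580, 899119, 901820, 904700, 907786, 911096,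
    914669, 918544, 922785, 927424, 932559, 938304, 944859, 952417, 961402, 972282]

theorem cert34 : checkTable 33 10000000 571216 70 60 gs34 = true := by decide +kernel

end Pool.Agent.Helper820_Eden
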