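import Mathlib
import Pool.Agent.Helper820_Eden.Lattice

set_option autoImplicit false
open MeasureTheory ProbabilityTheory
open scoped ENNReal

namespace Pool.Agent.Helper820_Eden

section

variable {J : Type} [DecidableEq J]

/-- Product integrals. -/
lemma lintegral_prod_law (E : Finset J) {f : ℝ → ℝ≥0∞} (hf : Measurable f) :
    ∫⁻ ω, ∏ e ∈ E, f (ω e) ∂(law J) = (∫⁻ x, f x ∂(expMeasure 1)) ^ E.card := by
  induction E using Finset.induction_on with
  | empty => simp
  | insert e E he ih =>
    have hm : Measurable (fun ω : J → ℝ => ∏ i ∈ insert e E, f (ω i)) :=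
      Finset.measurable_prod _ fun i _ => hf.comp (measurable_pi_apply i)
    have hm2 : Measurable (fun ω : J → ℝ => ∏ i ∈ E, f (ω i)) :=
      Finset.measurable_prod _ fun i _ => hf.comp (measurable_pi_apply i)
    rw [lintegral_resample e hm, Finset.card_insert_of_notMem he, pow_succ, ← ih,
      ← lintegral_mul_const _ hm2]
    refine lintegral_congr fun ω => ?_
    rw [← lintegral_const_mul _ hf]
    refine lintegral_congr fun x => ?_
    rw [Finset.prod_insert he, Function.update_self, mul_comm]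
    congr 1
    refine Finset.prod_congr rfl fun i hi => ?_
    rw [Function.update_of_ne (by rintro rfl; exact he hi)]

/-- Exponential Markov inequality. -/
lemma chernoff (E : Finset J) (κ t : ℝ) :
    law J {ω | κ * t ≤ κ * ∑ e ∈ E, max (ω e) 0} ≤ ENNReal.ofReal (Real.exp (-(κ * t))) *
      (∫⁻ x, ENNReal.ofReal (Real.exp (κ * max x 0)) ∂(expMeasure 1)) ^ E.card := by
  have hf : Measurable (fun x : ℝ => ENNReal.ofReal (Real.exp (κ * max x 0))) := by fun_prop
  have hm2 : Measurable (fun ω : J → ℝ => ∏ i ∈ E, ENNReal.ofReal (Real.exp (κ * max (ω i) 0))) :=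
    Finset.measurable_prod _ fun i _ => hf.comp (measurable_pi_apply i)
  rw [← lintegral_prod_law E hf, ← lintegral_const_mul _ hm2]
  have hset : MeasurableSet {ω : J → ℝ | κ * t ≤ κ * ∑ e ∈ E, max (ω e) 0} := by
    refine measurableSet_le measurable_const ?_
    fun_prop
  rw [← lintegral_indicator_one hset]
  refine lintegral_mono fun ω => ?_
  by_cases h : ω ∈ {ω : J → ℝ | κ * t ≤ κ * ∑ e ∈ E, max (ω e) 0}
  · rw [Set.indicator_of_mem h]
    simp only [Pi.one_apply]
    rw [← ENNReal.ofReal_prod_of_nonneg fun i _ => (Real.exp_pos _).le, ← Real.exp_sum,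
      ← Finset.mul_sum, ← ENNReal.ofReal_mul (Real.exp_pos _).le, ← Real.exp_add,
      ENNReal.one_le_ofReal, Real.one_le_exp_iff]
    have h' : κ * t ≤ κ * ∑ e ∈ E, max (ω e) 0 := h
    linarith
  · rw [Set.indicator_of_notMem h]
    exact zero_le

end

lemma laplace_neg (θ : ℝ) (hθ : 0 ≤ θ) :
    ∫⁻ x, ENNReal.ofReal (Real.exp (-θ * max x 0)) ∂(expMeasure 1) ≤
      ENNReal.ofReal (1 / (1 + θ)) := by
  rw [← laplace θ (by linarith)]
  refine lintegral_mono fun x => ?_
  refine ENNReal.ofReal_le_ofReal (Real.exp_le_exp.2 ?_)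
  rcases le_total 0 x with h | h
  · rw [max_eq_left h]; linarith
  · rw [max_eq_right h]; nlinarith

lemma ae_nonneg : ∀ᵐ x ∂(expMeasure 1), 0 ≤ x := by
  have h := exp_Iio 0 le_rfl
  rw [ENNReal.ofReal_zero] at h
  rw [ae_iff]
  refine le_antisymm (le_trans (measure_mono ?_) h) zero_le
  intro x hx
  simpa using hx

lemma laplace_pos :
    ∫⁻ x, ENNReal.ofReal (Real.exp (1 / 2 * max x 0)) ∂(expMeasure 1) = ENNReal.ofReal 2 := by
  have h := laplace (-(1 / 2)) (by norm_num)
  have h2 : (1 : ℝ) / (1 + -(1 / 2)) = 2 := by norm_num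
  rw [h2] at h
  rw [← h]
  refine lintegral_congr_ae ?_
  filter_upwards [ae_nonneg] with x hx
  rw [max_eq_left hx]
  congr 2
  ring

lemma list_sum_ofReal {J : Type} (ω : J → ℝ) (l : List J) :
    (l.map (fun e => ENNReal.ofReal (ω e))).sum =
      ENNReal.ofReal (l.map (fun e => max (ω e) 0)).sum := by
  induction l with
  | nil => simp
  | cons a l ih =>
    simp only [List.map_cons, List.sum_cons, ih]
    rw [ENNReal.ofReal_add (le_max_right _ _)]
    · congr 1
      rcases le_total 0 (ω a) with h | h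
      · rw [max_eq_left h]
      · rw [max_eq_right h, ENNReal.ofReal_zero, ENNReal.ofReal_of_nonpos h]
    · refine List.sum_nonneg ?_
      intro x hx
      obtain ⟨e, -, rfl⟩ := List.mem_map.1 hx
      exact le_max_right _ _

lemma list_sum_toFinset {J : Type} [DecidableEq J] (f : J → ℝ) (l : List J) (hl : l.Nodup) :
    (l.map f).sum = ∑ e ∈ l.toFinset, f e := (List.sum_toFinset f hl).symm

end Pool.Agent.Helper820_Eden
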