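import Mathlib
import Pool.Agent.Helper820_Eden.Chernoff

set_option autoImplicit false
open MeasureTheory ProbabilityTheory
open scoped ENNReal

namespace Pool.Agent.Helper820_Eden

variable {ι : Type} [Fintype ι] [DecidableEq ι]

/-- Edges crossed by a list of steps. -/
def stepEdges : (ι → ℤ) → List (ι × Bool) → List (Sym2 (ι → ℤ))
  | _, [] => []
  | x, t :: l => s(x, x + sg t) :: stepEdges (x + sg t) l

/-- Endpoint of a list of steps. -/
def endpt : (ι → ℤ) → List (ι × Bool) → (ι → ℤ)
  | x, [] => x
  | x, t :: l => endpt (x + sg t) l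

lemma stepEdges_length (l : List (ι × Bool)) : ∀ x : ι → ℤ, (stepEdges x l).length = l.length := by
  induction l with
  | nil => intro x; rfl
  | cons t l ih => intro x; simp [stepEdges, ih]

lemma walk_steps : ∀ {x y : ι → ℤ} (p : (latG ι).Walk x y),
    ∃ l, stepEdges x l = p.edges ∧ endpt x l = y := by
  intro x y p
  induction p with
  | nil => exact ⟨[], rfl, rfl⟩
  | cons h p ih =>
    obtain ⟨l, h1, h2⟩ := ih
    obtain ⟨t, rfl⟩ := adj_iff.1 h
    exact ⟨t :: l, by simp [stepEdges, h1], by simp [endpt, h2]⟩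

lemma stepEdges_take (l : List (ι × Bool)) : ∀ (x : ι → ℤ) (n : ℕ),
    stepEdges x (l.take n) = (stepEdges x l).take n := by
  induction l with
  | nil => intro x n; simp [stepEdges]
  | cons t l ih =>
    intro x n
    cases n with
    | zero => simp [stepEdges]
    | succ n => simp [stepEdges, ih]

/-- The sign of a step. -/
def sgn (t : ι × Bool) : ℤ := if t.2 then 1 else -1

lemma sum_sg (t : ι × Bool) : ∑ i, sg t i = sgn t := by
  rw [Finset.sum_eq_single t.1]
  · rw [sg_self]; rfl
  · intro j _ hj
    exact sg_ne hj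
  · simp

lemma sum_endpt (l : List (ι × Bool)) : ∀ x : ι → ℤ,
    ∑ i, endpt x l i = ∑ i, x i + (l.map sgn).sum := by
  induction l with
  | nil => intro x; simp [endpt]
  | cons t l ih =>
    intro x
    rw [endpt, ih]
    simp only [Pi.add_apply, Finset.sum_add_distrib, sum_sg, List.map_cons, List.sum_cons]
    ring

lemma abs_endpt (l : List (ι × Bool)) (i : ι) : ∀ x : ι → ℤ,
    |endpt x l i - x i| ≤ l.length := by
  induction l with
  | nil => intro x; simp [endpt]
  | cons t l ih =>
    intro x
    rw [endpt]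
    have h1 := ih (x + sg t)
    have h2 : |sg t i| ≤ 1 := by
      by_cases h : i = t.1
      · subst h; rw [sg_self]; split_ifs <;> simp
      · rw [sg_ne h]; simp
    rw [Pi.add_apply] at h1
    rw [abs_le] at h1 h2 ⊢
    simp only [List.length_cons]
    push_cast
    constructor <;> linarith [h1.1, h1.2, h2.1, h2.2]

/-- Every walk dominates a walk without repeated edges. -/
lemma cost_bypass (w : Sym2 (ι → ℤ) → ℝ≥0∞) {x y : ι → ℤ} (p : (latG ι).Walk x y) :
    cost w p.bypass ≤ cost w p ∧ p.bypass.edges.Nodup := by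
  have hnd : p.bypass.edges.Nodup := p.bypass_isPath.isTrail.edges_nodup
  refine ⟨?_, hnd⟩
  unfold cost
  obtain ⟨l', hl', hs⟩ := List.subperm_of_subset hnd p.edges_bypass_subset
  rw [← (hl'.map w).sum_eq]
  exact (hs.map w).sum_le_sum (by simp)

/-- Sums over lists of products. -/
lemma tsum_list {α : Type} [Fintype α] (f : α → ℝ≥0∞) :
    ∑' l : List α, (l.map f).prod = ∑' n : ℕ, (∑ a, f a) ^ n := by
  rw [← (List.equivSigmaTuple (α := α)).symm.tsum_eq, ENNReal.tsum_sigma']
  refine tsum_congr fun n => ?_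
  rw [tsum_fintype, Fintype.sum_pow]
  refine Finset.sum_congr rfl fun g _ => ?_
  simp [List.equivSigmaTuple, List.map_ofFn, List.prod_ofFn]

end Pool.Agent.Helper820_Eden
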