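import Mathlib
import Pool.Agent.Helper820_Eden.Steps

set_option autoImplicit false
open MeasureTheory ProbabilityTheory Filter Topology
open scoped ENNReal

namespace Pool.Agent.Helper820_Eden

lemma exists_of_tau_lt {V : Type} {G : SimpleGraph V} {w : Sym2 V → ℝ≥0∞} {A S : Set V}
    {c : ℝ≥0∞} (h : tau G w A S < c) : ∃ x ∈ A, ∃ y ∈ S, ∃ p : G.Walk x y, cost w p < c := by
  by_contra hcon
  push Not at hcon
  exact absurd (le_tau hcon) (not_le.2 h)

variable {ι : Type} [Fintype ι] [DecidableEq ι]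

/-- From a cheap connection to a cheap list of steps without repeated edges. -/
lemma exists_steps {ω : Sym2 (ι → ℤ) → ℝ} {x y : ι → ℤ} (p : (latG ι).Walk x y) {c : ℝ}
    (h : cost (fun e => ENNReal.ofReal (ω e)) p < ENNReal.ofReal c) :
    ∃ l : List (ι × Bool), (stepEdges x l).Nodup ∧ endpt x l = y ∧
      ∑ e ∈ (stepEdges x l).toFinset, max (ω e) 0 < c := by
  obtain ⟨h1, h2⟩ := cost_bypass (fun e => ENNReal.ofReal (ω e)) p
  obtain ⟨l, h3, h4⟩ := walk_steps p.bypass
  refine ⟨l, by rw [h3]; exact h2, h4, ?_⟩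
  have h5 := h1.trans_lt h
  unfold cost at h5
  rw [list_sum_ofReal, list_sum_toFinset _ _ h2] at h5
  rw [h3]
  by_contra hcon
  push Not at hcon
  exact absurd (ENNReal.ofReal_le_ofReal hcon) (not_le.2 h5)

lemma prod_steps (lam θ : ℝ) (l : List (ι × Bool)) :
    (l.map (fun t => ENNReal.ofReal (Real.exp (lam * (sgn t : ℤ))) *
      ENNReal.ofReal (1 / (1 + θ)))).prod =
      ENNReal.ofReal (Real.exp (lam * ((l.map sgn).sum : ℤ))) *
        ENNReal.ofReal (1 / (1 + θ)) ^ l.length := by
  induction l with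
  | nil => simp
  | cons t l ih =>
    simp only [List.map_cons, List.prod_cons, ih, List.sum_cons, List.length_cons, pow_succ]
    push_cast
    rw [mul_add, Real.exp_add, ENNReal.ofReal_mul (Real.exp_pos _).le]
    ring

lemma sum_steps (lam θ : ℝ) (hθ : 0 ≤ θ) :
    ∑ t : ι × Bool, ENNReal.ofReal (Real.exp (lam * (sgn t : ℤ))) *
      ENNReal.ofReal (1 / (1 + θ)) =
      ENNReal.ofReal (Fintype.card ι * (Real.exp lam + Real.exp (-lam)) / (1 + θ)) := by
  rw [← Finset.sum_mul, Fintype.sum_prod_type]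
  simp only [Fintype.sum_bool, sgn, if_true, Bool.false_eq_true, if_false]
  rw [Finset.sum_const, nsmul_eq_mul, Finset.card_univ]
  push_cast
  rw [mul_one, mul_neg, mul_one, ← ENNReal.ofReal_add (Real.exp_pos _).le (Real.exp_pos _).le,
    ← ENNReal.ofReal_natCast, ← ENNReal.ofReal_mul (by positivity),
    ← ENNReal.ofReal_mul (by positivity)]
  congr 1
  ring

/-- Lower bound for the passage time along the diagonal. -/
theorem diag_bound (s θ lam : ℝ) (hθ : 0 < θ)
    (hF : Fintype.card ι * (Real.exp lam + Real.exp (-lam)) < 1 + θ)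
    (hlt : θ * s < lam * Fintype.card ι) :
    Tendsto (fun n : ℕ => law (Sym2 (ι → ℤ))
      {ω | TT (latG ι) {0} {n • (1 : ι → ℤ)} ω < ENNReal.ofReal (s * n)}) atTop (𝓝 0) := by
  set f : ι × Bool → ℝ≥0∞ := fun t => ENNReal.ofReal (Real.exp (lam * (sgn t : ℤ))) *
      ENNReal.ofReal (1 / (1 + θ)) with hf
  have hbound : ∀ n : ℕ, law (Sym2 (ι → ℤ))
      {ω | TT (latG ι) {0} {n • (1 : ι → ℤ)} ω < ENNReal.ofReal (s * n)} ≤
      ENNReal.ofReal (Real.exp ((θ * s - lam * Fintype.card ι) * n)) *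
        ∑' l : List (ι × Bool), (l.map f).prod := by
    intro n
    set A : List (ι × Bool) → Set (Sym2 (ι → ℤ) → ℝ) := fun l =>
      if (stepEdges 0 l).Nodup ∧ endpt 0 l = n • (1 : ι → ℤ) then
        {ω | (-θ) * (s * n) ≤ (-θ) * ∑ e ∈ (stepEdges 0 l).toFinset, max (ω e) 0} else ∅ with hA
    have hsub : {ω | TT (latG ι) {0} {n • (1 : ι → ℤ)} ω < ENNReal.ofReal (s * n)} ⊆
        ⋃ l, A l := by
      intro ω hω
      obtain ⟨x, hx, y, hy, p, hp⟩ := exists_of_tau_lt hω
      rw [Set.mem_singleton_iff] at hx hy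
      subst hx hy
      obtain ⟨l, h1, h2, h3⟩ := exists_steps p hp
      rw [Set.mem_iUnion]
      refine ⟨l, ?_⟩
      simp only [hA, h1, h2, and_self, if_true]
      show (-θ) * (s * n) ≤ (-θ) * ∑ e ∈ (stepEdges 0 l).toFinset, max (ω e) 0
      nlinarith
    refine (measure_mono hsub).trans ((measure_iUnion_le _).trans ?_)
    rw [← ENNReal.tsum_mul_left]
    refine ENNReal.tsum_le_tsum fun l => ?_
    simp only [hA]
    split_ifs with h
    · obtain ⟨h1, h2⟩ := h
      refine (chernoff _ (-θ) (s * n)).trans ?_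
      rw [prod_steps, List.toFinset_card_of_nodup h1, stepEdges_length,
        ← mul_assoc (ENNReal.ofReal (Real.exp ((θ * s - lam * Fintype.card ι) * n))),
        ← ENNReal.ofReal_mul (Real.exp_pos _).le, ← Real.exp_add]
      have h3 := sum_endpt l 0
      rw [h2] at h3
      simp only [Pi.smul_apply, Pi.one_apply, Pi.zero_apply, Finset.sum_const, nsmul_eq_mul,
        Finset.card_univ, mul_one, mul_zero, zero_add] at h3
      rw [← h3]
      refine mul_le_mul' (le_of_eq ?_) (pow_le_pow_left' (laplace_neg θ hθ.le) _)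
      congr 2
      push_cast
      ring
    · simp
  have hsum : ∑' l : List (ι × Bool), (l.map f).prod ≠ ⊤ := by
    rw [tsum_list, sum_steps lam θ hθ.le, ENNReal.tsum_geometric]
    refine ENNReal.inv_ne_top.2 ?_
    rw [ne_eq, tsub_eq_zero_iff_le, not_le, ← ENNReal.ofReal_one, ENNReal.ofReal_lt_ofReal_iff
      one_pos, div_lt_one (by linarith)]
    exact hF
  have hlim : Tendsto (fun n : ℕ =>
      ENNReal.ofReal (Real.exp ((θ * s - lam * Fintype.card ι) * n)) *
        ∑' l : List (ι × Bool), (l.map f).prod) atTop (𝓝 0) := by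
    have h1 : Tendsto (fun n : ℕ =>
        ENNReal.ofReal (Real.exp ((θ * s - lam * Fintype.card ι) * n))) atTop (𝓝 0) := by
      rw [← ENNReal.ofReal_zero]
      refine ENNReal.tendsto_ofReal ?_
      refine Real.tendsto_exp_atBot.comp ?_
      exact tendsto_natCast_atTop_atTop.const_mul_atTop_of_neg (by linarith)
    have h2 := ENNReal.Tendsto.mul_const (b := ∑' l : List (ι × Bool), (l.map f).prod) h1
      (Or.inr hsum)
    rwa [zero_mul] at h2
  exact tendsto_of_tendsto_of_tendsto_of_le_of_le tendsto_const_nhds hlim (fun _ => zero_le) hbound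

end Pool.Agent.Helper820_Eden
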