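import Mathlib
import Pool.Agent.Helper820_Eden.Diag

set_option autoImplicit false
open MeasureTheory ProbabilityTheory Filter Topology
open scoped ENNReal

namespace Pool.Agent.Helper820_Eden

variable {ι : Type} [Fintype ι] [DecidableEq ι]

/-- Monotone walks. -/
lemma straight (x : ι → ℤ) : ∀ (n : ℕ) (v : ι → ℕ), ∑ i, v i = n →
    ∃ p : (latG ι).Walk x (x + fun i => (v i : ℤ)), p.length = n := by
  intro n
  induction n with
  | zero =>
    intro v hv
    have h0 : ∀ i, v i = 0 := by
      intro i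
      have := Finset.sum_eq_zero_iff.1 hv i (Finset.mem_univ i)
      exact this
    have h1 : (x + fun i => (v i : ℤ)) = x := by
      funext i
      simp [h0 i]
    rw [h1]
    exact ⟨SimpleGraph.Walk.nil, rfl⟩
  | succ n ih =>
    intro v hv
    obtain ⟨i, hi⟩ : ∃ i, v i ≠ 0 := by
      by_contra hcon
      push Not at hcon
      simp [hcon] at hv
    set v' : ι → ℕ := Function.update v i (v i - 1) with hv'
    have hsum : ∑ j, v' j = n := by
      have h1 := Finset.add_sum_erase Finset.univ v' (Finset.mem_univ i)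
      have h2 := Finset.add_sum_erase Finset.univ v (Finset.mem_univ i)
      have h3 : ∑ j ∈ Finset.univ.erase i, v' j = ∑ j ∈ Finset.univ.erase i, v j := by
        refine Finset.sum_congr rfl fun j hj => ?_
        rw [hv', Function.update_of_ne (Finset.mem_erase.1 hj).1]
      have h4 : v' i = v i - 1 := by rw [hv', Function.update_self]
      omega
    obtain ⟨p, hp⟩ := ih v' hsum
    have hadj : (latG ι).Adj (x + fun j => (v' j : ℤ)) (x + fun j => (v j : ℤ)) := by
      rw [adj_iff]
      refine ⟨(i, true), funext fun j => ?_⟩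
      by_cases hj : j = i
      · subst hj
        have h4 : v' j = v j - 1 := by rw [hv', Function.update_self]
        have h5 : sg (j, true) j = 1 := by simp [sg]
        simp only [Pi.add_apply, h4, h5]
        omega
      · have h4 : v' j = v j := by rw [hv', Function.update_of_ne hj]
        have h5 : sg (i, true) j = 0 := sg_ne hj
        simp only [Pi.add_apply, h4, h5]
        omega
    exact ⟨p.concat hadj, by rw [SimpleGraph.Walk.length_concat, hp]⟩

/-- Straight connections are not slow. -/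
lemma straight_bound (x : ι → ℤ) (k : ℕ) (v : ι → ℕ) (hv : ∀ i, v i ≤ k) :
    law (Sym2 (ι → ℤ)) {ω | ENNReal.ofReal (4 * Fintype.card ι * k) ≤
      TT (latG ι) {x + fun i => (v i : ℤ)} {x} ω} ≤
      ENNReal.ofReal ((Real.exp (-2) * 2) ^ (Fintype.card ι * k)) := by
  obtain ⟨p, hp⟩ := straight x _ v rfl
  set q := p.reverse.bypass with hq
  have hnd : q.edges.Nodup := p.reverse.bypass_isPath.isTrail.edges_nodup
  have hlen : q.length ≤ Fintype.card ι * k := by
    refine (p.reverse.length_bypass_le).trans ?_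
    rw [SimpleGraph.Walk.length_reverse, hp]
    calc ∑ i, v i ≤ ∑ _i : ι, k := Finset.sum_le_sum fun i _ => hv i
      _ = Fintype.card ι * k := by rw [Finset.sum_const, Finset.card_univ, smul_eq_mul]
  have hsub : {ω | ENNReal.ofReal (4 * Fintype.card ι * k) ≤
      TT (latG ι) {x + fun i => (v i : ℤ)} {x} ω} ⊆
      {ω | (1 / 2 : ℝ) * (4 * Fintype.card ι * k) ≤
        (1 / 2 : ℝ) * ∑ e ∈ q.edges.toFinset, max (ω e) 0} := by
    intro ω hω
    have h1 : TT (latG ι) {x + fun i => (v i : ℤ)} {x} ω ≤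
        cost (fun e => ENNReal.ofReal (ω e)) q :=
      tau_le (Set.mem_singleton _) (Set.mem_singleton _) q
    have h2 := le_trans (show ENNReal.ofReal (4 * Fintype.card ι * k) ≤
      TT (latG ι) {x + fun i => (v i : ℤ)} {x} ω from hω) h1
    unfold cost at h2
    rw [list_sum_ofReal, list_sum_toFinset _ _ hnd, ENNReal.ofReal_le_ofReal_iff
      (Finset.sum_nonneg fun _ _ => le_max_right _ _)] at h2
    show (1 / 2 : ℝ) * (4 * Fintype.card ι * k) ≤
        (1 / 2 : ℝ) * ∑ e ∈ q.edges.toFinset, max (ω e) 0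
    linarith
  refine (measure_mono hsub).trans ((chernoff _ _ _).trans ?_)
  rw [laplace_pos, List.toFinset_card_of_nodup hnd, SimpleGraph.Walk.length_edges,
    ← ENNReal.ofReal_pow (by norm_num), ← ENNReal.ofReal_mul (Real.exp_pos _).le]
  refine ENNReal.ofReal_le_ofReal ?_
  rw [mul_pow, ← Real.exp_nat_mul]
  refine mul_le_mul (le_of_eq ?_) (pow_le_pow_right₀ (by norm_num) hlen) (by positivity)
    (by positivity)
  congr 1
  push_cast
  ring

/-- Long paths are not fast. -/
lemma long_bound (n : ℕ) (θ c : ℝ) (hθ : 0 < θ) :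
    law (Sym2 (ι → ℤ)) {ω | ∃ l : List (ι × Bool), l.length = n ∧ (stepEdges 0 l).Nodup ∧
      ∑ e ∈ (stepEdges 0 l).toFinset, max (ω e) 0 ≤ c} ≤
      ENNReal.ofReal (Real.exp (θ * c) * (2 * Fintype.card ι / (1 + θ)) ^ n) := by
  set A : (Fin n → ι × Bool) → Set (Sym2 (ι → ℤ) → ℝ) := fun g =>
    if (stepEdges 0 (List.ofFn g)).Nodup then
      {ω | (-θ) * c ≤ (-θ) * ∑ e ∈ (stepEdges 0 (List.ofFn g)).toFinset, max (ω e) 0} else ∅
    with hA
  have hsub : {ω : Sym2 (ι → ℤ) → ℝ | ∃ l : List (ι × Bool), l.length = n ∧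
      (stepEdges 0 l).Nodup ∧ ∑ e ∈ (stepEdges 0 l).toFinset, max (ω e) 0 ≤ c} ⊆ ⋃ g, A g := by
    rintro ω ⟨l, h1, h2, h3⟩
    subst h1
    rw [Set.mem_iUnion]
    refine ⟨l.get, ?_⟩
    simp only [hA, List.ofFn_get, h2, if_true]
    show (-θ) * c ≤ (-θ) * ∑ e ∈ (stepEdges 0 l).toFinset, max (ω e) 0
    nlinarith
  refine (measure_mono hsub).trans ((measure_iUnion_fintype_le _ _).trans ?_)
  have hone : ∀ g, law (Sym2 (ι → ℤ)) (A g) ≤
      ENNReal.ofReal (Real.exp (θ * c) * (1 / (1 + θ)) ^ n) := by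
    intro g
    simp only [hA]
    split_ifs with h
    · refine (chernoff _ (-θ) c).trans ?_
      rw [List.toFinset_card_of_nodup h, stepEdges_length, List.length_ofFn,
        ENNReal.ofReal_mul (Real.exp_pos _).le, ENNReal.ofReal_pow (by positivity)]
      refine mul_le_mul' (le_of_eq ?_) (pow_le_pow_left' (laplace_neg θ hθ.le) _)
      congr 2
      ring
    · simp
  calc ∑ g, law (Sym2 (ι → ℤ)) (A g)
      ≤ ∑ _g : Fin n → ι × Bool, ENNReal.ofReal (Real.exp (θ * c) * (1 / (1 + θ)) ^ n) :=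
        Finset.sum_le_sum fun g _ => hone g
    _ = ENNReal.ofReal (Real.exp (θ * c) * (2 * Fintype.card ι / (1 + θ)) ^ n) := by
        rw [Finset.sum_const, Finset.card_univ, nsmul_eq_mul, Fintype.card_fun, Fintype.card_prod,
          Fintype.card_bool, Fintype.card_fin, ← ENNReal.ofReal_natCast,
          ← ENNReal.ofReal_mul (by positivity)]
        congr 1
        push_cast
        rw [div_pow, div_pow, mul_pow, mul_pow]
        ring

/-- Triangle inequality. -/
lemma tau_triangle {V : Type} {G : SimpleGraph V} (w : Sym2 V → ℝ≥0∞) {x y : V} (S : Set V)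
    (p : G.Walk x y) : tau G w {x} S ≤ cost w p + tau G w {y} S := by
  rw [← tsub_le_iff_left]
  refine le_tau fun x' hx' z hz q => ?_
  rw [Set.mem_singleton_iff] at hx'
  subst hx'
  rw [tsub_le_iff_left]
  refine (tau_le (w := w) (Set.mem_singleton x) hz (p.append q)).trans ?_
  unfold cost
  rw [SimpleGraph.Walk.edges_append, List.map_append, List.sum_append]

/-- The bad events. -/
def farEv (ι : Type) [Fintype ι] [DecidableEq ι] (n : ℕ) (c : ℝ) :
    Set (Sym2 (ι → ℤ) → ℝ) := {ω | ∃ l : List (ι × Bool), l.length = n ∧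
      (stepEdges 0 l).Nodup ∧ ∑ e ∈ (stepEdges 0 l).toFinset, max (ω e) 0 ≤ c}

/-- Slow straight connection. -/
def slowEv (z : ι → ℤ) (k : ℕ) (v : ι → ℕ) : Set (Sym2 (ι → ℤ) → ℝ) :=
  {ω | ENNReal.ofReal (4 * Fintype.card ι * k) ≤
      TT (latG ι) {(k • z) + fun i => (v i : ℤ)} {k • z} ω}

lemma cover (i₀ : ι) (r : ℝ) (M K k : ℕ) (hk : 0 < k) (ω : Sym2 (ι → ℤ) → ℝ)
    (hr : 0 ≤ r)
    (h : TT (latG ι) {0} {z | z i₀ = ((k * M : ℕ) : ℤ)} ω < ENNReal.ofReal (r * (k * M))) :
    ω ∈ farEv ι (K * k) (r * (k * M)) ∨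
      (∃ z ∈ (Fintype.piFinset (fun _ : ι => Finset.Icc (-(K : ℤ)) K)).filter
        (fun z : ι → ℤ => z i₀ = (M : ℤ)), TT (latG ι) {0} {k • z} ω <
          ENNReal.ofReal ((r * M + 4 * Fintype.card ι) * k)) ∨
      (∃ z ∈ (Fintype.piFinset (fun _ : ι => Finset.Icc (-(K : ℤ)) K)).filter
        (fun z : ι → ℤ => z i₀ = (M : ℤ)), ∃ v ∈ Fintype.piFinset (fun _ : ι => Finset.range k),
          ω ∈ slowEv z k v) := by
  obtain ⟨x, hx, y, hy, p, hp⟩ := exists_of_tau_lt h
  rw [Set.mem_singleton_iff] at hx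
  subst hx
  replace hy : y i₀ = ((k * M : ℕ) : ℤ) := hy
  obtain ⟨l, h1, h2, h3⟩ := exists_steps p hp
  by_cases hlen : K * k ≤ l.length
  · left
    refine ⟨l.take (K * k), by simpa using hlen, ?_, ?_⟩
    · rw [stepEdges_take]
      exact h1.sublist (List.take_sublist _ _)
    · refine le_trans ?_ h3.le
      refine Finset.sum_le_sum_of_subset_of_nonneg ?_ fun _ _ _ => le_max_right _ _
      intro e he
      rw [stepEdges_take, List.mem_toFinset] at he
      exact List.mem_toFinset.2 (List.mem_of_mem_take he)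
  · right
    push Not at hlen
    have hkz : (0 : ℤ) < k := by exact_mod_cast hk
    set z : ι → ℤ := fun i => y i / k with hz
    set v : ι → ℕ := fun i => (y i % k).toNat with hv
    have hvz : ∀ i, ((v i : ℕ) : ℤ) = y i % k := fun i =>
      Int.toNat_of_nonneg (Int.emod_nonneg _ hkz.ne')
    have hyz : y = (k • z) + fun i => (v i : ℤ) := by
      funext i
      simp only [Pi.add_apply, Pi.smul_apply, hz, hvz, nsmul_eq_mul]
      exact (Int.mul_ediv_add_emod _ _).symm
    have hzD : z ∈ (Fintype.piFinset (fun _ : ι => Finset.Icc (-(K : ℤ)) K)).filter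
        (fun z : ι → ℤ => z i₀ = (M : ℤ)) := by
      rw [Finset.mem_filter, Fintype.mem_piFinset]
      refine ⟨fun i => ?_, ?_⟩
      · have h4 := abs_endpt l i 0
        rw [h2, Pi.zero_apply, sub_zero, abs_le] at h4
        have h5 : (l.length : ℤ) < K * k := by exact_mod_cast hlen
        rw [Finset.mem_Icc]
        constructor
        · rw [hz]
          refine (Int.le_ediv_iff_mul_le hkz).2 ?_
          linarith [h4.1]
        · rw [hz]
          refine le_of_lt ((Int.ediv_lt_iff_lt_mul hkz).2 ?_)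
          linarith [h4.2]
      · simp only [hz, hy]
        push_cast
        exact Int.mul_ediv_cancel_left _ hkz.ne'
    have hvV : v ∈ Fintype.piFinset (fun _ : ι => Finset.range k) := by
      rw [Fintype.mem_piFinset]
      intro i
      rw [Finset.mem_range]
      have := Int.emod_lt_of_pos (y i) hkz
      rw [← hvz i] at this
      exact_mod_cast this
    by_cases hs : ω ∈ slowEv z k v
    · right
      exact ⟨z, hzD, v, hvV, hs⟩
    · left
      refine ⟨z, hzD, ?_⟩
      have h4 : TT (latG ι) {y} {k • z} ω < ENNReal.ofReal (4 * Fintype.card ι * k) := by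
        rw [hyz]
        exact not_le.1 hs
      have h5 : TT (latG ι) {0} {k • z} ω ≤ cost (fun e => ENNReal.ofReal (ω e)) p +
          TT (latG ι) {y} {k • z} ω := tau_triangle _ _ p
      refine h5.trans_lt ((ENNReal.add_lt_add hp h4).trans_le ?_)
      rw [← ENNReal.ofReal_add (by positivity) (by positivity)]
      refine ENNReal.ofReal_le_ofReal (le_of_eq ?_)
      ring

/-- From points to hyperplanes. -/
theorem plane_lower (i₀ : ι) (r : ℝ) (hr : 0 ≤ r) (M : ℕ)
    (h : ∀ z : ι → ℤ, z i₀ = M → Tendsto (fun k : ℕ => law (Sym2 (ι → ℤ))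
      {ω | TT (latG ι) {0} {k • z} ω < ENNReal.ofReal ((r * M + 4 * Fintype.card ι) * k)})
        atTop (𝓝 0)) :
    Tendsto (fun k : ℕ => law (Sym2 (ι → ℤ))
      {ω | TT (latG ι) {0} {z | z i₀ = ((k * M : ℕ) : ℤ)} ω < ENNReal.ofReal (r * (k * M))})
        atTop (𝓝 0) := by
  have hd : (1 : ℝ) ≤ Fintype.card ι := by
    have : 0 < Fintype.card ι := Fintype.card_pos_iff.2 ⟨i₀⟩
    exact_mod_cast this
  obtain ⟨d, hdd⟩ : ∃ d : ℝ, (Fintype.card ι : ℝ) = d := ⟨_, rfl⟩
  rw [hdd] at hd
  obtain ⟨K, hK⟩ := exists_pow_lt_of_lt_one (Real.exp_pos (-(4 * d * (r * M))))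
    (by norm_num : (1 / 2 : ℝ) < 1)
  set D := (Fintype.piFinset (fun _ : ι => Finset.Icc (-(K : ℤ)) K)).filter
        (fun z : ι → ℤ => z i₀ = (M : ℤ)) with hD
  -- the far term
  have hfar : Tendsto (fun k : ℕ => law (Sym2 (ι → ℤ)) (farEv ι (K * k) (r * (k * M)))) atTop
      (𝓝 0) := by
    have hβ0 : 0 ≤ Real.exp (4 * d * (r * M)) * (1 / 2) ^ K := by positivity
    have hβ1 : Real.exp (4 * d * (r * M)) * (1 / 2) ^ K < 1 := by
      have := mul_lt_mul_of_pos_left hK (Real.exp_pos (4 * d * (r * M)))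
      rwa [← Real.exp_add, add_neg_cancel, Real.exp_zero] at this
    have hlim : Tendsto (fun k : ℕ => ENNReal.ofReal
        ((Real.exp (4 * d * (r * M)) * (1 / 2) ^ K) ^ k)) atTop (𝓝 0) := by
      rw [← ENNReal.ofReal_zero]
      exact ENNReal.tendsto_ofReal (tendsto_pow_atTop_nhds_zero_of_lt_one hβ0 hβ1)
    refine tendsto_of_tendsto_of_tendsto_of_le_of_le tendsto_const_nhds hlim
      (fun _ => zero_le) fun k => ?_
    refine (long_bound (K * k) (4 * d) (r * (k * M)) (by linarith)).trans ?_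
    refine ENNReal.ofReal_le_ofReal ?_
    rw [mul_pow, ← pow_mul, ← Real.exp_nat_mul]
    refine mul_le_mul (le_of_eq ?_) ?_ (by positivity) (Real.exp_pos _).le
    · congr 1; ring
    · refine pow_le_pow_left₀ (by positivity) ?_ _
      rw [div_le_div_iff₀ (by linarith) (by norm_num)]
      rw [hdd]
      linarith
  -- the middle term
  have hmid : Tendsto (fun k : ℕ => ∑ z ∈ D, law (Sym2 (ι → ℤ))
      {ω | TT (latG ι) {0} {k • z} ω < ENNReal.ofReal ((r * M + 4 * Fintype.card ι) * k)})
        atTop (𝓝 0) := by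
    have := tendsto_finset_sum D fun z hz => h z (Finset.mem_filter.1 hz).2
    simpa using this
  -- the slow term
  have hslow : Tendsto (fun k : ℕ => ENNReal.ofReal (D.card * ((k : ℝ) ^ (Fintype.card ι) *
      ((Real.exp (-2) * 2) ^ (Fintype.card ι)) ^ k))) atTop (𝓝 0) := by
    have he : Real.exp (-2) * 2 < 1 := by
      have h1 := Real.add_one_le_exp (2 : ℝ)
      have h2 : Real.exp (-2) * Real.exp 2 = 1 := by rw [← Real.exp_add]; simp
      have h3 := Real.exp_pos (-2)
      nlinarith
    have hq : (Real.exp (-2) * 2) ^ (Fintype.card ι) < 1 :=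
      pow_lt_one₀ (by positivity) he (Fintype.card_pos_iff.2 ⟨i₀⟩).ne'
    have hq' : |(Real.exp (-2) * 2) ^ (Fintype.card ι)| < 1 := by
      rw [abs_of_nonneg (by positivity)]
      exact hq
    have h1 := tendsto_pow_const_mul_const_pow_of_abs_lt_one (Fintype.card ι) hq'
    have h2 := h1.const_mul (D.card : ℝ)
    rw [mul_zero] at h2
    rw [← ENNReal.ofReal_zero]
    exact ENNReal.tendsto_ofReal h2
  have htot := (hfar.add hmid).add hslow
  rw [add_zero, add_zero] at htot
  refine tendsto_of_tendsto_of_tendsto_of_le_of_le' tendsto_const_nhds htot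
    (Eventually.of_forall fun _ => zero_le) ?_
  filter_upwards [eventually_gt_atTop 0] with k hk
  have hsub : {ω | TT (latG ι) {0} {z | z i₀ = ((k * M : ℕ) : ℤ)} ω <
      ENNReal.ofReal (r * (k * M))} ⊆ (farEv ι (K * k) (r * (k * M)) ∪
        ⋃ z ∈ D, {ω | TT (latG ι) {0} {k • z} ω <
          ENNReal.ofReal ((r * M + 4 * Fintype.card ι) * k)}) ∪
        ⋃ z ∈ D, ⋃ v ∈ Fintype.piFinset (fun _ : ι => Finset.range k), slowEv z k v := by
    intro ω hω
    rcases cover i₀ r M K k hk ω hr hω with h1 | ⟨z, hz, h1⟩ | ⟨z, hz, v, hv, h1⟩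
    · exact Or.inl (Or.inl h1)
    · exact Or.inl (Or.inr (Set.mem_biUnion hz h1))
    · exact Or.inr (Set.mem_biUnion hz (Set.mem_biUnion hv h1))
  refine (measure_mono hsub).trans ((measure_union_le _ _).trans ?_)
  refine add_le_add ((measure_union_le _ _).trans (add_le_add le_rfl
    (measure_biUnion_finset_le _ _))) ?_
  refine (measure_biUnion_finset_le _ _).trans ?_
  calc ∑ z ∈ D, law (Sym2 (ι → ℤ))
        (⋃ v ∈ Fintype.piFinset (fun _ : ι => Finset.range k), slowEv z k v)
      ≤ ∑ z ∈ D, ∑ v ∈ Fintype.piFinset (fun _ : ι => Finset.range k),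
          law (Sym2 (ι → ℤ)) (slowEv z k v) :=
        Finset.sum_le_sum fun z _ => measure_biUnion_finset_le _ _
    _ ≤ ∑ z ∈ D, ∑ v ∈ Fintype.piFinset (fun _ : ι => Finset.range k),
          ENNReal.ofReal ((Real.exp (-2) * 2) ^ (Fintype.card ι * k)) := by
        refine Finset.sum_le_sum fun z _ => Finset.sum_le_sum fun v hv => ?_
        refine straight_bound (k • z) k v fun i => ?_
        exact (Finset.mem_range.1 (Fintype.mem_piFinset.1 hv i)).le
    _ = _ := by
        rw [Finset.sum_const, Finset.sum_const, Fintype.card_piFinset, Finset.prod_const,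
          Finset.card_univ, Finset.card_range,
          nsmul_eq_mul, nsmul_eq_mul, ← ENNReal.ofReal_natCast, ← ENNReal.ofReal_natCast,
          ← ENNReal.ofReal_mul (by positivity), ← ENNReal.ofReal_mul (by positivity)]
        congr 1
        rw [pow_mul]
        push_cast
        ring

end Pool.Agent.Helper820_Eden
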