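import Mathlib
import Pool.Agent.Helper820_Eden.Plane
import Pool.Agent.Helper820_Eden.Table

set_option autoImplicit false
open MeasureTheory ProbabilityTheory Filter Topology
open scoped ENNReal

namespace Pool.Agent.Helper820_Eden

section

variable {ι : Type} [Fintype ι] [DecidableEq ι] {Ω : Type} [MeasurableSpace Ω]
  {P : Measure Ω} [IsProbabilityMeasure P] {ω : Sym2 (ι → ℤ) → Ω → ℝ}

lemma map_law (hind : iIndepFun ω P) (hlaw : ∀ e, Measurable (ω e) ∧ P.map (ω e) = expMeasure 1) :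
    P.map (fun t e => ω e t) = law (Sym2 (ι → ℤ)) := by
  rw [hind.map_fun_eq_infinitePi_map fun e => (hlaw e).1]
  congr 1
  funext e
  exact (hlaw e).2

lemma walk_nonempty (x : ι → ℤ) (y : ι → ℤ) : Nonempty ((latG ι).Walk x y) := by
  -- go through the coordinatewise minimum
  set z : ι → ℤ := fun i => min (x i) (y i) with hz
  obtain ⟨p, -⟩ := straight z _ (fun i => (x i - z i).toNat) rfl
  obtain ⟨q, -⟩ := straight z _ (fun i => (y i - z i).toNat) rfl
  have h1 : (z + fun i => (((x i - z i).toNat : ℕ) : ℤ)) = x := by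
    funext i
    have : 0 ≤ x i - z i := by simp [hz]
    simp only [Pi.add_apply, Int.toNat_of_nonneg this]
    ring
  have h2 : (z + fun i => (((y i - z i).toNat : ℕ) : ℤ)) = y := by
    funext i
    have : 0 ≤ y i - z i := by simp [hz]
    simp only [Pi.add_apply, Int.toNat_of_nonneg this]
    ring
  rw [h1] at p
  rw [h2] at q
  exact ⟨p.reverse.append q⟩

/-- The real passage time. -/
noncomputable def TR (ω : Sym2 (ι → ℤ) → ℝ) (y : ι → ℤ) : ℝ :=
  ⨅ p : (latG ι).Walk 0 y, (p.edges.map (fun e => ω e)).sum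

lemma cost_ofReal {w : Sym2 (ι → ℤ) → ℝ} (hw : ∀ e, 0 ≤ w e) {x y : ι → ℤ}
    (p : (latG ι).Walk x y) :
    cost (fun e => ENNReal.ofReal (w e)) p = ENNReal.ofReal (p.edges.map w).sum := by
  unfold cost
  rw [list_sum_ofReal]
  congr 2
  refine List.map_congr_left fun e _ => ?_
  exact max_eq_left (hw e)

lemma TR_lower {w : Sym2 (ι → ℤ) → ℝ} (hw : ∀ e, 0 ≤ w e) (y : ι → ℤ) :
    ENNReal.ofReal (TR w y) ≤ TT (latG ι) {0} {y} w := by
  refine le_tau fun x hx z hz p => ?_
  rw [Set.mem_singleton_iff] at hx hz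
  subst hx hz
  rw [cost_ofReal hw]
  refine ENNReal.ofReal_le_ofReal (ciInf_le ⟨0, ?_⟩ p)
  rintro _ ⟨q, rfl⟩
  refine List.sum_nonneg fun x hx => ?_
  obtain ⟨e, -, rfl⟩ := List.mem_map.1 hx
  exact hw e

lemma TR_upper {w : Sym2 (ι → ℤ) → ℝ} (hw : ∀ e, 0 ≤ w e) (y : ι → ℤ) (c : ℝ)
    (h : TR w y < c) : TT (latG ι) {0} {y} w < ENNReal.ofReal c := by
  have := walk_nonempty (0 : ι → ℤ) y
  obtain ⟨p, hp⟩ := exists_lt_of_ciInf_lt h
  refine (tau_le (Set.mem_singleton _) (Set.mem_singleton _) p).trans_lt ?_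
  rw [cost_ofReal hw]
  refine (ENNReal.ofReal_lt_ofReal_iff_of_nonneg ?_).2 hp
  refine List.sum_nonneg fun x hx => ?_
  obtain ⟨e, -, rfl⟩ := List.mem_map.1 hx
  exact hw e

lemma ae_all_nonneg (hlaw : ∀ e, Measurable (ω e) ∧ P.map (ω e) = expMeasure 1) :
    ∀ᵐ t ∂P, ∀ e, 0 ≤ ω e t := by
  rw [ae_all_iff]
  intro e
  have h1 : ∀ᵐ x ∂(P.map (ω e)), 0 ≤ x := by
    rw [(hlaw e).2]
    exact ae_nonneg
  exact ae_of_ae_map (hlaw e).1.aemeasurable h1

/-- Almost sure lower bounds pass to the canonical space. -/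
lemma transfer_lower (hind : iIndepFun ω P)
    (hlaw : ∀ e, Measurable (ω e) ∧ P.map (ω e) = expMeasure 1) (x : ι → ℤ) (L a : ℝ)
    (ha : a < L) (hx : ∀ᵐ t ∂P, Tendsto (fun n : ℕ => TR (fun e => ω e t) (n • x) / (n : ℝ))
      atTop (𝓝 L)) :
    Tendsto (fun n : ℕ => law (Sym2 (ι → ℤ))
      {w | TT (latG ι) {0} {n • x} w < ENNReal.ofReal (a * n)}) atTop (𝓝 0) := by
  have hF : Measurable (fun t e => ω e t) := measurable_pi_iff.2 fun e => (hlaw e).1
  have hms : ∀ n : ℕ, MeasurableSet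
      {w : Sym2 (ι → ℤ) → ℝ | TT (latG ι) {0} {n • x} w < ENNReal.ofReal (a * n)} := fun n =>
    measurableSet_lt (measurable_TT _ _ _) measurable_const
  have h1 : ∀ n : ℕ, law (Sym2 (ι → ℤ))
      {w | TT (latG ι) {0} {n • x} w < ENNReal.ofReal (a * n)} =
      P {t | TT (latG ι) {0} {n • x} (fun e => ω e t) < ENNReal.ofReal (a * n)} := by
    intro n
    rw [← map_law hind hlaw, Measure.map_apply hF (hms n)]
    rfl
  simp only [h1]
  rw [← measure_empty (μ := P)]
  refine tendsto_measure_of_ae_tendsto_indicator_of_isFiniteMeasure atTop MeasurableSet.empty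
    (fun n => hF (hms n)) ?_
  filter_upwards [hx, ae_all_nonneg hlaw] with t ht hpos
  filter_upwards [ht.eventually (eventually_gt_nhds ha), eventually_gt_atTop 0] with n hn hn0
  have hn0' : (0 : ℝ) < n := by exact_mod_cast hn0
  rw [lt_div_iff₀ hn0'] at hn
  simp only [Set.mem_empty_iff_false, iff_false]
  intro hcon
  have hcon' : TT (latG ι) {0} {n • x} (fun e => ω e t) < ENNReal.ofReal (a * n) := hcon
  have h2 := (TR_lower hpos (n • x)).trans_lt hcon'
  exact absurd (ENNReal.ofReal_le_ofReal hn.le) (not_le.2 h2)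

/-- Almost sure upper bounds pass to the canonical space. -/
lemma transfer_upper (hind : iIndepFun ω P)
    (hlaw : ∀ e, Measurable (ω e) ∧ P.map (ω e) = expMeasure 1) (x : ι → ℤ) (L a : ℝ)
    (ha : L < a) (hx : ∀ᵐ t ∂P, Tendsto (fun n : ℕ => TR (fun e => ω e t) (n • x) / (n : ℝ))
      atTop (𝓝 L)) :
    Tendsto (fun n : ℕ => law (Sym2 (ι → ℤ))
      {w | TT (latG ι) {0} {n • x} w < ENNReal.ofReal (a * n)}) atTop (𝓝 1) := by
  have hF : Measurable (fun t e => ω e t) := measurable_pi_iff.2 fun e => (hlaw e).1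
  have hms : ∀ n : ℕ, MeasurableSet
      {w : Sym2 (ι → ℤ) → ℝ | TT (latG ι) {0} {n • x} w < ENNReal.ofReal (a * n)} := fun n =>
    measurableSet_lt (measurable_TT _ _ _) measurable_const
  have h1 : ∀ n : ℕ, law (Sym2 (ι → ℤ))
      {w | TT (latG ι) {0} {n • x} w < ENNReal.ofReal (a * n)} =
      P {t | TT (latG ι) {0} {n • x} (fun e => ω e t) < ENNReal.ofReal (a * n)} := by
    intro n
    rw [← map_law hind hlaw, Measure.map_apply hF (hms n)]
    rfl
  simp only [h1]
  rw [← measure_univ (μ := P)]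
  refine tendsto_measure_of_ae_tendsto_indicator_of_isFiniteMeasure atTop MeasurableSet.univ
    (fun n => hF (hms n)) ?_
  filter_upwards [hx, ae_all_nonneg hlaw] with t ht hpos
  filter_upwards [ht.eventually (eventually_lt_nhds ha), eventually_gt_atTop 0] with n hn hn0
  have hn0' : (0 : ℝ) < n := by exact_mod_cast hn0
  rw [div_lt_iff₀ hn0'] at hn
  simp only [Set.mem_univ, iff_true]
  exact TR_upper hpos _ _ hn

/-- The time constant in a fixed direction is bounded by the one of hyperplanes. -/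
theorem plane_upper (i₀ : ι) (m Λ C amax bmax : ℕ) (gs : List ℕ) (hm : m = Fintype.card ι - 1)
    (hΛ : 0 < Λ) (hchk : checkTable m Λ C amax bmax gs = true) (c : ℝ) (hc : 0 ≤ c)
    (hcon : ∀ z : ι → ℤ, ∀ a < c * Real.sqrt (∑ i, ((z i : ℝ)) ^ 2),
      Tendsto (fun k : ℕ => law (Sym2 (ι → ℤ))
      {ω | TT (latG ι) {0} {k • z} ω < ENNReal.ofReal (a * k)}) atTop (𝓝 0)) :
    c * Λ ≤ C := by
  by_contra hlt
  push Not at hlt
  have hΛ' : (0 : ℝ) < Λ := by exact_mod_cast hΛ
  -- choose r strictly between C / Λ and c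
  obtain ⟨r, hr1, hr2⟩ := exists_between ((div_lt_iff₀ hΛ').2 hlt)
  have hr0 : 0 < r := lt_of_le_of_lt (by positivity) hr1
  rw [div_lt_iff₀ hΛ'] at hr1
  -- choose M
  obtain ⟨M, hM⟩ := exists_nat_gt (4 * Fintype.card ι / (c - r))
  rw [div_lt_iff₀ (by linarith)] at hM
  have hM0 : (0 : ℝ) < M := by
    by_contra hcon'
    push Not at hcon'
    have : (0 : ℝ) ≤ 4 * Fintype.card ι := by positivity
    nlinarith
  have hplane := plane_lower i₀ r hr0.le M (by
    intro z hz
    refine hcon z _ ?_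
    have h1 : (M : ℝ) ≤ Real.sqrt (∑ i, ((z i : ℝ)) ^ 2) := by
      refine Real.le_sqrt_of_sq_le ?_
      have h2 : ((z i₀ : ℝ)) ^ 2 ≤ ∑ i, ((z i : ℝ)) ^ 2 :=
        Finset.single_le_sum (f := fun i => ((z i : ℝ)) ^ 2) (fun i _ => sq_nonneg _)
          (Finset.mem_univ i₀)
      rw [hz] at h2
      simpa using h2
    calc r * M + 4 * Fintype.card ι < c * M := by linarith
      _ ≤ _ := mul_le_mul_of_nonneg_left h1 hc)
  obtain ⟨K, hK⟩ := table_bound i₀ m Λ C amax bmax gs hm hΛ hchk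
  -- Markov
  have hmarkov : ∀ k : ℕ, 0 < k → 1 ≤ law (Sym2 (ι → ℤ))
      {ω | TT (latG ι) {0} {z | z i₀ = ((k * M : ℕ) : ℤ)} ω < ENNReal.ofReal (r * (k * M))} +
      ENNReal.ofReal ((C * (k * M) + K) / (Λ * (r * (k * M)))) := by
    intro k hk
    have hk' : (0 : ℝ) < k := by exact_mod_cast hk
    set T := TT (latG ι) {0} {z | z i₀ = ((k * M : ℕ) : ℤ)} with hT
    have hmT : Measurable T := measurable_TT _ _ _
    have h1 : ENNReal.ofReal (r * (k * M)) *
        law (Sym2 (ι → ℤ)) {ω | ENNReal.ofReal (r * (k * M)) ≤ T ω} ≤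
        ET (latG ι) {0} {z | z i₀ = ((k * M : ℕ) : ℤ)} :=
      mul_meas_ge_le_lintegral hmT _
    have h2 := hK (k * M)
    have h3 : law (Sym2 (ι → ℤ)) {ω | ENNReal.ofReal (r * (k * M)) ≤ T ω} ≤
        ENNReal.ofReal ((C * (k * M) + K) / (Λ * (r * (k * M)))) := by
      have hpos : 0 < Λ * (r * (k * M)) := by positivity
      rw [ENNReal.ofReal_div_of_pos hpos, ENNReal.le_div_iff_mul_le
        (Or.inl (ENNReal.ofReal_pos.2 hpos).ne') (Or.inl ENNReal.ofReal_ne_top),
        ENNReal.ofReal_mul hΛ'.le, ENNReal.ofReal_natCast]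
      calc law (Sym2 (ι → ℤ)) {ω | ENNReal.ofReal (r * (k * M)) ≤ T ω} *
            ((Λ : ℝ≥0∞) * ENNReal.ofReal (r * (k * M)))
          = (Λ : ℝ≥0∞) * (ENNReal.ofReal (r * (k * M)) *
            law (Sym2 (ι → ℤ)) {ω | ENNReal.ofReal (r * (k * M)) ≤ T ω}) := by ring
        _ ≤ (Λ : ℝ≥0∞) * ET (latG ι) {0} {z | z i₀ = ((k * M : ℕ) : ℤ)} :=
            mul_le_mul_right h1 _
        _ ≤ _ := h2
        _ = _ := by
            rw [← ENNReal.ofReal_natCast]
            congr 1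
            push_cast
            ring
    have h4 : (1 : ℝ≥0∞) = law (Sym2 (ι → ℤ)) {ω | T ω < ENNReal.ofReal (r * (k * M))} +
        law (Sym2 (ι → ℤ)) {ω | ENNReal.ofReal (r * (k * M)) ≤ T ω} := by
      have h5 : {ω | ENNReal.ofReal (r * (k * M)) ≤ T ω} =
          {ω | T ω < ENNReal.ofReal (r * (k * M))}ᶜ := by
        ext ω; simp
      rw [h5, measure_add_measure_compl (measurableSet_lt hmT measurable_const), measure_univ]
    rw [h4]
    exact add_le_add le_rfl h3
  have hlim2 : Tendsto (fun k : ℕ => ENNReal.ofReal ((C * (k * M) + K) / (Λ * (r * (k * M)))))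
      atTop (𝓝 (ENNReal.ofReal (C / (Λ * r)))) := by
    refine ENNReal.tendsto_ofReal ?_
    have h1 : Tendsto (fun k : ℕ => C / (Λ * r) + K / (Λ * r * M) * (1 / (k : ℝ))) atTop
        (𝓝 (C / (Λ * r) + K / (Λ * r * M) * 0)) :=
      tendsto_const_nhds.add (tendsto_one_div_atTop_nhds_zero_nat.const_mul _)
    rw [mul_zero, add_zero] at h1
    refine h1.congr' ?_
    filter_upwards [eventually_gt_atTop 0] with k hk
    have hk' : (0 : ℝ) < k := by exact_mod_cast hk
    field_simp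
  have hfin := ge_of_tendsto (hplane.add hlim2) (by
    filter_upwards [eventually_gt_atTop 0] with k hk
    exact hmarkov k hk)
  rw [zero_add, ENNReal.one_le_ofReal, le_div_iff₀ (by positivity)] at hfin
  linarith

end

end Pool.Agent.Helper820_Eden
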