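import Mathlib
import Pool.Agent.Helper820_Eden.Transfer

set_option autoImplicit false
open MeasureTheory ProbabilityTheory Filter Topology
open scoped ENNReal

namespace Pool.Agent.Helper820_Eden

lemma log_bound : (12039 / 10000 : ℝ) < Real.log (10 / 3) := by
  rw [Real.lt_log_iff_exp_lt (by norm_num)]
  have h1 : (12039 / 10000 : ℝ) = 1 + 2039 / 10000 := by norm_num
  rw [h1, Real.exp_add]
  have h2 := Real.exp_one_lt_d9
  have h3 := Real.exp_bound' (x := 2039 / 10000) (by norm_num) (by norm_num) (n := 5) (by norm_num)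
  simp only [Finset.sum_range_succ, Finset.sum_range_zero, Nat.factorial] at h3
  have h4 : Real.exp (2039 / 10000) ≤ 122618 / 100000 := by
    refine h3.trans ?_
    norm_num
  calc Real.exp 1 * Real.exp (2039 / 10000) ≤ 2.7182818286 * (122618 / 100000) :=
        mul_le_mul h2.le h4 (Real.exp_pos _).le (by norm_num)
    _ < 10 / 3 := by norm_num

/-- A successful check shows that the limit shape is not a ball. -/
theorem not_ball (d : ℕ) (Λ C amax bmax : ℕ) (gs : List ℕ) (hd : 0 < d) (hΛ : 0 < Λ)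
    (hC : 0 < C) (hchk : checkTable (d - 1) Λ C amax bmax gs = true)
    (hnum : (C * (109 * d - 30)) ^ 2 * 10 ^ 8 < (12039 * 30 * Λ) ^ 2 * d)
    (Ω : Type) [MeasurableSpace Ω] (P : Measure Ω) [IsProbabilityMeasure P]
    (ω : Sym2 (Fin d → ℤ) → Ω → ℝ) (hind : iIndepFun ω P)
    (hlaw : ∀ e, Measurable (ω e) ∧ P.map (ω e) = expMeasure 1) :
    ¬ ∃ c : ℝ, ∀ x : Fin d → ℤ, ∀ᵐ t ∂P,
      Tendsto
        (fun n : ℕ =>
          (⨅ p : (SimpleGraph.fromRel
              (fun y z : Fin d → ℤ => ∑ i, |y i - z i| = 1)).Walk 0 (n • x),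
              (p.edges.map (fun e => ω e t)).sum) / (n : ℝ))
        atTop (𝓝 (c * Real.sqrt (∑ i, ((x i : ℝ)) ^ 2))) := by
  rintro ⟨c, hc⟩
  have hc' : ∀ x : Fin d → ℤ, ∀ᵐ t ∂P, Tendsto
      (fun n : ℕ => TR (fun e => ω e t) (n • x) / (n : ℝ)) atTop
      (𝓝 (c * Real.sqrt (∑ i, ((x i : ℝ)) ^ 2))) := hc
  have hd' : (0 : ℝ) < d := by exact_mod_cast hd
  have hΛ' : (0 : ℝ) < Λ := by exact_mod_cast hΛ
  have hC' : (0 : ℝ) < C := by exact_mod_cast hC
  have hd1 : (1 : ℝ) ≤ d := by exact_mod_cast hd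
  have hsq : 0 < Real.sqrt d := Real.sqrt_pos.2 hd'
  -- diagonal lower bound
  have hdiag : ∀ s θ : ℝ, 0 < θ → d * (109 / 30) < 1 + θ → θ * s < Real.log (10 / 3) * d →
      s ≤ c * Real.sqrt d := by
    intro s θ hθ h1 h2
    by_contra hcon
    push Not at hcon
    have hx1 : Real.sqrt (∑ i : Fin d, (((1 : Fin d → ℤ) i : ℝ)) ^ 2) = Real.sqrt d := by
      congr 1
      simp
    have hup := transfer_upper hind hlaw 1 (c * Real.sqrt d) s hcon (by
      have := hc' 1
      rwa [hx1] at this)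
    have hlo := diag_bound (ι := Fin d) s θ (Real.log (10 / 3)) hθ (by
      rw [Real.exp_neg, Real.exp_log (by norm_num), Fintype.card_fin]
      refine lt_of_le_of_lt (le_of_eq ?_) h1
      norm_num) (by rwa [Fintype.card_fin])
    exact zero_ne_one (tendsto_nhds_unique hlo hup)
  -- choice of the parameters
  have hA : (0 : ℝ) < d * (109 / 30) - 1 := by linarith
  obtain ⟨s0, hs0⟩ : ∃ s0 : ℝ, (C : ℝ) / Λ * Real.sqrt d = s0 := ⟨_, rfl⟩
  have hs0pos : 0 < s0 := by rw [← hs0]; positivity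
  have hkey : s0 * (d * (109 / 30) - 1) < Real.log (10 / 3) * d := by
    have hnum' : (C * (109 * (d : ℝ) - 30)) ^ 2 * 100000000 < (361170 * (Λ : ℝ)) ^ 2 * d := by
      have h30 : 30 ≤ 109 * d := by omega
      have := (Nat.cast_lt (α := ℝ)).2 hnum
      push_cast [Nat.cast_sub h30] at this
      exact this
    have h1 : C / Λ * (d * (109 / 30) - 1) < 12039 / 10000 * Real.sqrt d := by
      refine lt_of_pow_lt_pow_left₀ 2 (by positivity) ?_
      rw [mul_pow (12039 / 10000 : ℝ), Real.sq_sqrt hd'.le]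
      have h2 : ((C : ℝ) / Λ * (d * (109 / 30) - 1)) ^ 2 =
          (C * (109 * (d : ℝ) - 30)) ^ 2 / (30 * Λ) ^ 2 := by
        field_simp
      rw [h2, div_lt_iff₀ (by positivity)]
      nlinarith [hnum']
    have h3 : s0 * (d * (109 / 30) - 1) < 12039 / 10000 * d := by
      rw [← hs0]
      calc (C : ℝ) / Λ * Real.sqrt d * (d * (109 / 30) - 1)
          = (C / Λ * (d * (109 / 30) - 1)) * Real.sqrt d := by ring
        _ < 12039 / 10000 * Real.sqrt d * Real.sqrt d := mul_lt_mul_of_pos_right h1 hsq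
        _ = 12039 / 10000 * d := by rw [mul_assoc, Real.mul_self_sqrt hd'.le]
    exact h3.trans (mul_lt_mul_of_pos_right log_bound hd')
  obtain ⟨θ, hθ1, hθ2⟩ := exists_between ((lt_div_iff₀ hs0pos).2
    (by rwa [mul_comm] : (d * (109 / 30) - 1) * s0 < Real.log (10 / 3) * d))
  rw [lt_div_iff₀ hs0pos] at hθ2
  have hθ0 : 0 < θ := hA.trans hθ1
  obtain ⟨s, hs1, hs2⟩ := exists_between ((lt_div_iff₀ hθ0).2
    (by rwa [mul_comm] : s0 * θ < Real.log (10 / 3) * d))
  rw [lt_div_iff₀ hθ0] at hs2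
  have hlow := hdiag s θ hθ0 (by linarith) (by rwa [mul_comm])
  have hcpos : (C : ℝ) / Λ < c := by
    rw [← hs0] at hs1
    exact lt_of_mul_lt_mul_right (hs1.trans_le hlow) hsq.le
  -- the hyperplane bound
  have hup := plane_upper (ι := Fin d) ⟨0, hd⟩ (d - 1) Λ C amax bmax gs
    (by rw [Fintype.card_fin]) hΛ hchk c (by
      have : (0 : ℝ) < C / Λ := by positivity
      linarith) (fun z a ha => transfer_lower hind hlaw z _ a ha (hc' z))
  rw [div_lt_iff₀ hΛ'] at hcpos
  linarith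

end Pool.Agent.Helper820_Eden
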